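import Mathlib
import Pool.Agent.helper5.AS.Sorted
import Pool.Agent.helper5.AS.Sym

/-!
# Type A: the formats of the generators and of the commuting elements
-/

set_option autoImplicit false

namespace Pool.Agent.helper90.MF

open Pool.Agent.helper5.AS Polynomial

/-- the generating function `det (1 + u M)` of the sums of the principal minors -/
noncomputable def gd {n : Type*} [Fintype n] [DecidableEq n] {R : Type*} [CommRing R]
    (M : Matrix n n R) : R[X] :=
  (1 + (X : R[X]) • M.map C).det

/-- `D_k(A) = ∑_i ∑_τ sgn τ A_{i_0 i_τ0} ⋯ A_{i_{k-1} i_τ(k-1)}` (entries in any ring, product in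
this order) -/
noncomputable def Dk {n : Type*} [Fintype n] {R : Type*} [Ring R] (k : ℕ) (A : Matrix n n R) : R :=
  ∑ i : Fin k → n, ∑ τ : Equiv.Perm (Fin k),
    ((Equiv.Perm.sign τ : ℤ) : R) * (List.ofFn fun j => A (i j) (i (τ j))).prod

section

variable (K : Type*) [Field K] {n : Type*} [Fintype n] [DecidableEq n]
  {L : Type*} [LieRing L] [LieAlgebra K L]

/-- the universal matrix over `S(L)` of a linear map `Y : Matrix n n K → L` -/
noncomputable def xS (Y : Matrix n n K →ₗ[K] L) : Matrix n n (Sy K L) :=
  Matrix.of fun i j => ιS K L (Y (Matrix.single j i 1))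

/-- the universal matrix over `U(L)` -/
noncomputable def xU (Y : Matrix n n K →ₗ[K] L) : Matrix n n (Ue K L) :=
  Matrix.of fun i j => ιU K L (Y (Matrix.single j i 1))

/-- the value of the universal matrix at the point `ξ` -/
def xiHat (Y : Matrix n n K →ₗ[K] L) (ξ : L →ₗ[K] K) : Matrix n n K :=
  Matrix.of fun i j => ξ (Y (Matrix.single j i 1))

/-- the matrix `x + t ξ` over `U(L)[t]` -/
noncomputable def xUt (Y : Matrix n n K →ₗ[K] L) (ξ : L →ₗ[K] K) : Matrix n n (Ue K L)[X] :=
  Matrix.of fun i j => C (xU K Y i j) + C (algebraMap K _ (xiHat K Y ξ i j)) * X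

/-- `1` if the entry `(i, j)` is odd, `0` if it is even -/
def od (par : n → Bool) (i j : n) : ℕ := if par i = par j then 0 else 1

/-- the contracted product of matrices: the products of two odd entries are dropped -/
def cmul (par : n → Bool) (a b : Matrix n n K) : Matrix n n K :=
  Matrix.of fun i j => ∑ k, if par i ≠ par k ∧ par k ≠ par j then 0 else a i k * b k j

/-- the largest even number `≤ min (k, 2 q)`, `q` the smaller of the two class sizes -/
def bk (par : n → Bool) (k : ℕ) : ℕ :=
  2 * min (k / 2) (min (Finset.univ.filter fun i => par i = true).card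
    (Finset.univ.filter fun i => par i = false).card)

/-- the generator `H_k` of type AIII: the coefficient of `ε ^ b_k` in `e_k (ε ^ od x)` -/
noncomputable def Hk (par : n → Bool) (Y : Matrix n n K →ₗ[K] L) (k : ℕ) : Sy K L :=
  ((gd (Matrix.of fun i j => (X : (Sy K L)[X]) ^ od par i j * C (xS K Y i j))).coeff k).coeff
    (bk par k)

end

end Pool.Agent.helper90.MF
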