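import Mathlib

/-!
# A determinantal identity

For square matrices `A`, `X`, `E` over a commutative ring,
`∑_f det (rows A_{i f(i)} X_{f(i)} + E_i)` (sum over the permutations `f`) is obtained from the
polynomial `det (A X + u E)` by replacing `u ^ k` by `k!`.
-/

set_option autoImplicit false

namespace Pool.Agent.helper90.MF

open Finset Matrix Polynomial

variable {n : Type*} [Fintype n] [DecidableEq n] {R : Type*} [CommRing R]

/-- the linear functional `u ^ k ↦ k!` -/
noncomputable def facLin : R[X] →ₗ[R] R :=
  Polynomial.lsum fun k => (Nat.factorial k : R) • LinearMap.id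

theorem facLin_monomial (k : ℕ) (a : R) :
    facLin (monomial k a) = (Nat.factorial k : R) * a := by
  unfold facLin
  rw [Polynomial.lsum_apply, Polynomial.sum_monomial_index]
  · rfl
  · exact map_zero _

/-- the determinant with the rows of `E` in the places of `T` and the row `g i` of `X` in the
place `i ∉ T` -/
def detT (X E : Matrix n n R) (T : Finset n) (g : n → n) : R :=
  (Matrix.of fun i k => if i ∈ T then E i k else X (g i) k).det

theorem detT_congr (X E : Matrix n n R) (T : Finset n) {g g' : n → n}
    (h : ∀ i, i ∉ T → g i = g' i) : detT X E T g = detT X E T g' := by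
  unfold detT
  congr 1
  ext i k
  simp only [Matrix.of_apply]
  by_cases hi : i ∈ T
  · rw [if_pos hi, if_pos hi]
  · rw [if_neg hi, if_neg hi, h i hi]

theorem detT_zero (X E : Matrix n n R) (T : Finset n) {g : n → n} {i j : n}
    (hi : i ∉ T) (hj : j ∉ T) (hij : i ≠ j) (h : g i = g j) : detT X E T g = 0 := by
  unfold detT
  refine Matrix.det_zero_of_row_eq hij ?_
  ext k
  simp only [Matrix.of_apply]
  rw [if_neg hi, if_neg hj, h]

/-- the number of permutations which extend an injection on the complement of `T` -/
theorem card_ext (T : Finset n) (g : n → n) (hg : ∀ i j, i ∉ T → j ∉ T → g i = g j → i = j) :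
    (univ.filter fun f : Equiv.Perm n => ∀ i, i ∉ T → f i = g i).card = T.card.factorial := by
  classical
  -- one extension
  obtain ⟨f₀, hf₀⟩ : ∃ f₀ : Equiv.Perm n, ∀ i, i ∉ T → f₀ i = g i := by
    let p : n → Prop := fun i => i ∉ T
    let q : n → Prop := fun k => ∃ i, i ∉ T ∧ g i = k
    let e : {x // p x} ≃ {x // q x} := Equiv.ofBijective
      (fun x => ⟨g x.1, x.1, x.2, rfl⟩) (by
        constructor
        · intro x y hxy
          have := congrArg Subtype.val hxy
          exact Subtype.ext (hg x.1 y.1 x.2 y.2 this)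
        · rintro ⟨k, i, hi, rfl⟩
          exact ⟨⟨i, hi⟩, rfl⟩)
    refine ⟨e.extendSubtype, fun i hi => ?_⟩
    rw [Equiv.extendSubtype_apply_of_mem e i hi]
    rfl
  have h1 : (univ.filter fun f : Equiv.Perm n => ∀ i, i ∉ T → f i = g i).card =
      (univ.filter fun f : Equiv.Perm n => ∀ i, i ∉ T → f i = i).card := by
    refine Finset.card_bij (fun f _ => f₀⁻¹ * f) ?_ ?_ ?_
    · intro f hf
      rw [Finset.mem_filter] at hf ⊢
      refine ⟨mem_univ _, fun i hi => ?_⟩
      rw [Equiv.Perm.mul_apply, hf.2 i hi, ← hf₀ i hi]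
      exact Equiv.symm_apply_apply f₀ i
    · intro f _ f' _ h
      exact mul_left_cancel h
    · intro f hf
      rw [Finset.mem_filter] at hf
      refine ⟨f₀ * f, ?_, by rw [inv_mul_cancel_left]⟩
      rw [Finset.mem_filter]
      refine ⟨mem_univ _, fun i hi => ?_⟩
      rw [Equiv.Perm.mul_apply, hf.2 i hi, hf₀ i hi]
  rw [h1]
  have h2 := Fintype.card_congr (Equiv.Perm.subtypeEquivSubtypePerm (fun i : n => i ∈ T))
  rw [Fintype.card_perm, Fintype.card_coe, Fintype.card_subtype] at h2
  exact h2.symm

/-- `∑_f det (rows A_{i f(i)} X_{f(i)} + E_i)` -/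
def permSum (A X E : Matrix n n R) : R :=
  ∑ f : Equiv.Perm n, (Matrix.of fun i k => A i (f i) * X (f i) k + E i k).det

theorem det_rows_add (a : n → R) (X E : Matrix n n R) (g : n → n) :
    (Matrix.of fun i k => a i * X (g i) k + E i k).det =
      ∑ T : Finset n, (∏ i ∈ Tᶜ, a i) * detT X E T g := by
  have h := (Matrix.detRowAlternating (n := n) (R := R)).toMultilinearMap.map_add_univ
    (fun i k => a i * X (g i) k) (fun i k => E i k)
  have h0 : (Matrix.of fun i k => a i * X (g i) k + E i k).det =
      (Matrix.detRowAlternating (n := n) (R := R)).toMultilinearMap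
        ((fun i k => a i * X (g i) k) + fun i k => E i k) := rfl
  rw [h0, h]
  refine (Finset.sum_bij (fun T _ => Tᶜ) (fun _ _ => mem_univ _)
    (fun T _ T' _ hT => compl_injective hT) (fun T _ => ⟨Tᶜ, mem_univ _, compl_compl T⟩) ?_)
  intro T _
  rw [compl_compl]
  have h1 : (T.piecewise (fun i k => a i * X (g i) k) fun i k => E i k) =
      fun i => (if i ∈ T then a i else 1) • (fun k => if i ∈ Tᶜ then E i k else X (g i) k) := by
    funext i k
    by_cases hi : i ∈ T
    · rw [Finset.piecewise_eq_of_mem _ _ _ hi, if_pos hi, Pi.smul_apply,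
        if_neg (by rw [mem_compl]; exact fun h => h hi), smul_eq_mul]
    · rw [Finset.piecewise_eq_of_notMem _ _ _ hi, if_neg hi, Pi.smul_apply,
        if_pos (by rw [mem_compl]; exact hi), one_smul]
  rw [h1, MultilinearMap.map_smul_univ, smul_eq_mul]
  congr 1
  rw [Finset.prod_ite_mem, Finset.univ_inter]

theorem permSum_eq (A X E : Matrix n n R) :
    permSum A X E = ∑ T : Finset n, ∑ f : Equiv.Perm n,
      (∏ i ∈ Tᶜ, A i (f i)) * detT X E T f := by
  unfold permSum
  rw [Finset.sum_comm]
  refine Finset.sum_congr rfl fun f _ => ?_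
  exact det_rows_add (fun i => A i (f i)) X E f

/-- the choices of a row for every place, the places of `T` being fixed -/
def choices (T : Finset n) : Finset (n → n) :=
  Fintype.piFinset fun i => if i ∈ T then {i} else univ

theorem mem_choices {T : Finset n} {g : n → n} : g ∈ choices T ↔ ∀ i ∈ T, g i = i := by
  unfold choices
  rw [Fintype.mem_piFinset]
  constructor
  · intro h i hi
    have := h i
    rw [if_pos hi, mem_singleton] at this
    exact this
  · intro h i
    by_cases hi : i ∈ T
    · rw [if_pos hi, mem_singleton]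
      exact h i hi
    · rw [if_neg hi]
      exact mem_univ _

theorem det_sum_rows (A X E : Matrix n n R) (T : Finset n) :
    (Matrix.of fun i k => if i ∈ T then E i k else (A * X) i k).det =
      ∑ g ∈ choices T, (∏ i ∈ Tᶜ, A i (g i)) * detT X E T g := by
  have h := (Matrix.detRowAlternating (n := n) (R := R)).toMultilinearMap.map_sum_finset
    (fun i j => (if i ∈ T then (1 : R) else A i j) •
      (fun k => if i ∈ T then E i k else X j k : n → R))
    (fun i => if i ∈ T then {i} else univ)
  have h0 : (Matrix.of fun i k => if i ∈ T then E i k else (A * X) i k).det =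
      (Matrix.detRowAlternating (n := n) (R := R)).toMultilinearMap
        (fun i => ∑ j ∈ (if i ∈ T then {i} else univ), (if i ∈ T then (1 : R) else A i j) •
          (fun k => if i ∈ T then E i k else X j k : n → R)) := by
    show Matrix.det _ = Matrix.det _
    congr 1
    ext i k
    by_cases hi : i ∈ T
    · simp only [Matrix.of_apply, if_pos hi, Finset.sum_singleton, one_smul]
    · simp only [Matrix.of_apply, if_neg hi, Finset.sum_apply, Pi.smul_apply, smul_eq_mul,
        Matrix.mul_apply]
  rw [h0, h]
  refine Finset.sum_congr rfl fun g _ => ?_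
  rw [MultilinearMap.map_smul_univ, smul_eq_mul]
  congr 1
  rw [← Finset.prod_compl_mul_prod T]
  have h1 : ∏ i ∈ T, (if i ∈ T then (1 : R) else A i (g i)) = 1 :=
    Finset.prod_eq_one fun i hi => if_pos hi
  have h2 : ∏ i ∈ Tᶜ, (if i ∈ T then (1 : R) else A i (g i)) = ∏ i ∈ Tᶜ, A i (g i) :=
    Finset.prod_congr rfl fun i hi => if_neg (mem_compl.1 hi)
  rw [h1, h2, mul_one]

theorem sum_perm_eq (A X E : Matrix n n R) (T : Finset n) :
    ∑ f : Equiv.Perm n, (∏ i ∈ Tᶜ, A i (f i)) * detT X E T f =
      (T.card.factorial : R) *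
        (Matrix.of fun i k => if i ∈ T then E i k else (A * X) i k).det := by
  rw [det_sum_rows, Finset.mul_sum]
  -- the restriction of a permutation
  let res : Equiv.Perm n → n → n := fun f i => if i ∈ T then i else f i
  have hres : ∀ f, res f ∈ choices T := fun f => mem_choices.2 fun i hi => if_pos hi
  rw [← Finset.sum_fiberwise_of_maps_to (s := univ) (t := choices T) (g := res)
    (fun f _ => hres f)]
  refine Finset.sum_congr rfl fun g hg => ?_
  have hg' := mem_choices.1 hg
  have hfib : (univ.filter fun f => res f = g) =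
      (univ.filter fun f : Equiv.Perm n => ∀ i, i ∉ T → f i = g i) := by
    ext f
    rw [Finset.mem_filter, Finset.mem_filter]
    refine and_congr_right fun _ => ?_
    constructor
    · intro h i hi
      rw [← h]
      exact (if_neg hi).symm
    · intro h
      funext i
      by_cases hi : i ∈ T
      · rw [hg' i hi]
        exact if_pos hi
      · rw [← h i hi]
        exact if_neg hi
  have hval : ∀ f ∈ univ.filter (fun f => res f = g),
      (∏ i ∈ Tᶜ, A i (f i)) * detT X E T f = (∏ i ∈ Tᶜ, A i (g i)) * detT X E T g := by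
    intro f hf
    rw [hfib, Finset.mem_filter] at hf
    congr 1
    · exact Finset.prod_congr rfl fun i hi => by rw [hf.2 i (mem_compl.1 hi)]
    · exact detT_congr X E T hf.2
  rw [Finset.sum_congr rfl hval, Finset.sum_const, hfib, nsmul_eq_mul]
  by_cases hinj : ∀ i j, i ∉ T → j ∉ T → g i = g j → i = j
  · rw [card_ext T g hinj]
  · push Not at hinj
    obtain ⟨i, j, hi, hj, hij, hne⟩ := hinj
    rw [detT_zero X E T hi hj hne hij, mul_zero, mul_zero, mul_zero]

theorem permSum_eq_facLin (A X E : Matrix n n R) :
    permSum A X E = facLin ((A * X).map C + (Polynomial.X : R[X]) • E.map C).det := by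
  rw [permSum_eq]
  have h := (Matrix.detRowAlternating (n := n) (R := R[X])).toMultilinearMap.map_add_univ
    (fun i k => C ((A * X) i k)) (fun i k => (Polynomial.X : R[X]) * C (E i k))
  have h0 : ((A * X).map C + (Polynomial.X : R[X]) • E.map C).det =
      (Matrix.detRowAlternating (n := n) (R := R[X])).toMultilinearMap
        ((fun i k => C ((A * X) i k)) + fun i k => (Polynomial.X : R[X]) * C (E i k)) := rfl
  rw [h0, h, map_sum]
  refine (Finset.sum_bij (fun T _ => Tᶜ) (fun _ _ => mem_univ _)
    (fun T _ T' _ hT => compl_injective hT) (fun T _ => ⟨Tᶜ, mem_univ _, compl_compl T⟩) ?_)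
  intro T _
  have h1 : (Tᶜ.piecewise (fun i k => C ((A * X) i k))
      fun i k => (Polynomial.X : R[X]) * C (E i k)) =
      fun i => (if i ∈ T then (Polynomial.X : R[X]) else 1) •
        (fun k => C (if i ∈ T then E i k else (A * X) i k)) := by
    funext i k
    by_cases hi : i ∈ T
    · rw [Finset.piecewise_eq_of_notMem _ _ _ (by rw [mem_compl]; exact fun h => h hi),
        Pi.smul_apply, if_pos hi, if_pos hi, smul_eq_mul]
    · rw [Finset.piecewise_eq_of_mem _ _ _ (mem_compl.2 hi), Pi.smul_apply, if_neg hi,
        if_neg hi, one_smul]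
  rw [sum_perm_eq, h1, MultilinearMap.map_smul_univ, smul_eq_mul, Finset.prod_ite_mem,
    Finset.univ_inter, Finset.prod_const]
  have h2 : (Matrix.detRowAlternating (n := n) (R := R[X])).toMultilinearMap
      (fun i k => C (if i ∈ T then E i k else (A * X) i k)) =
      C (Matrix.of fun i k => if i ∈ T then E i k else (A * X) i k).det := by
    rw [RingHom.map_det]
    rfl
  rw [h2, mul_comm ((Polynomial.X : R[X]) ^ T.card), Polynomial.C_mul_X_pow_eq_monomial,
    facLin_monomial]

end Pool.Agent.helper90.MF
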