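import Mathlib
import Pool.Agent.helper90.MF.DetId

/-!
# Symmetry of the star product of two shifted determinants
-/

set_option autoImplicit false

namespace Pool.Agent.helper90.MF

open Finset Matrix Polynomial

variable {n : Type*} [Fintype n] [DecidableEq n] {R : Type*} [CommRing R]

theorem det_mul_add_comm (P Q : Matrix n n R) (s : R) :
    (P * Q + scalar n s).det = (Q * P + scalar n s).det := by
  have h : ∀ M : Matrix n n R, (M + scalar n s).det =
      (-1) ^ Fintype.card n * M.charpoly.eval (-s) := fun M => by
    rw [Matrix.eval_charpoly, ← Matrix.det_neg]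
    congr 1
    rw [map_neg, neg_sub, sub_neg_eq_add]
  rw [h, h, Matrix.charpoly_mul_comm]

/-- `det (A A' + u E) = det (A' A + u E)` if `E` is a combination of `A`, `A'` and `1` -/
theorem det_lin_comm (A A' E : Matrix n n R) (t t' c u : R) (hd : IsUnit (t' - t))
    (h : (t' - t) • E = t' • A - t • A' - scalar n c) :
    (A * A' + u • E).det = (A' * A + u • E).det := by
  have key : ∀ s : R, s = (t' - t) * u * c - u ^ 2 * t * t' →
      (t' - t) ^ 2 • (A * A' + u • E) =
        ((t' - t) • A + scalar n (-(u * t))) * ((t' - t) • A' + scalar n (u * t')) +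
          scalar n (-s) ∧
      (t' - t) ^ 2 • (A' * A + u • E) =
        ((t' - t) • A' + scalar n (u * t')) * ((t' - t) • A + scalar n (-(u * t))) +
          scalar n (-s) := by
    intro s hs
    have hE : (t' - t) ^ 2 • (u • E) = ((t' - t) * u) • (t' • A - t • A' - scalar n c) := by
      rw [← h, smul_smul, smul_smul]
      congr 1
      ring
    simp only [Matrix.scalar_apply, ← Matrix.smul_one_eq_diagonal] at *
    constructor
    · rw [smul_add, hE, hs]
      simp only [smul_sub, smul_smul, add_mul, mul_add, Matrix.smul_mul, Matrix.mul_smul,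
        Matrix.mul_one, Matrix.one_mul]
      module
    · rw [smul_add, hE, hs]
      simp only [smul_sub, smul_smul, add_mul, mul_add, Matrix.smul_mul, Matrix.mul_smul,
        Matrix.mul_one, Matrix.one_mul]
      module
  obtain ⟨h1, h2⟩ := key _ rfl
  have h3 := congrArg Matrix.det h1
  have h4 := congrArg Matrix.det h2
  rw [det_mul_add_comm, ← h4, Matrix.det_smul, Matrix.det_smul] at h3
  exact ((hd.pow 2).pow _).mul_left_cancel h3

theorem permSum_comm (A A' E : Matrix n n R) (t t' c : R) (hd : IsUnit (t' - t))
    (h : (t' - t) • E = t' • A - t • A' - scalar n c) :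
    permSum A A' E = permSum A' A E := by
  rw [permSum_eq_facLin, permSum_eq_facLin]
  congr 1
  have hm : ∀ B B' : Matrix n n R, (B * B').map (C : R →+* R[X]) = B.map C * B'.map C :=
    fun B B' => Matrix.map_mul
  rw [hm, hm]
  refine det_lin_comm (A.map C) (A'.map C) (E.map C) (C t) (C t') (C c) Polynomial.X ?_ ?_
  · rw [← map_sub]
    exact hd.map C
  · have h1 := congrArg (fun M : Matrix n n R => M.map (C : R →+* R[X])) h
    ext i j
    have h2 := congrFun (congrFun h1 i) j
    simp only [Matrix.map_apply, Matrix.smul_apply, Matrix.sub_apply, smul_eq_mul, map_mul,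
      map_sub, Matrix.scalar_apply, Matrix.diagonal_apply] at h2 ⊢
    rw [h2]
    split_ifs <;> simp

end Pool.Agent.helper90.MF
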