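import Mathlib
import Pool.Agent.helper5.AS.Sorted
import Pool.Agent.helper5.AS.Sym

/-!
# The enveloping algebra of an associative algebra acts on the symmetric algebra

For an associative algebra `A` the enveloping algebra of the Lie algebra `A` acts on `S(A)` by
`x ψ = ι x * ψ + (derivation y ↦ x y) ψ`.  This action is faithful already at `1`, and it commutes
with the right action.
-/

set_option autoImplicit false

namespace Pool.Agent.helper90.MF

open Pool.Agent.helper5.AS

attribute [local instance 100] LieRing.ofAssociativeRing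

variable (K : Type*) [Field K] {A : Type*} [Ring A] [Algebra K A]

/-- the derivation `y ↦ x y` -/
noncomputable def dL (x : A) : Derivation K (Sy K A) (Sy K A) :=
  derD (ιS K A ∘ₗ LinearMap.mulLeft K x)

/-- the derivation `y ↦ y x` -/
noncomputable def dR (x : A) : Derivation K (Sy K A) (Sy K A) :=
  derD (ιS K A ∘ₗ LinearMap.mulRight K x)

theorem dL_ι (x y : A) : dL K x (ιS K A y) = ιS K A (x * y) := derD_ι _ _

theorem dR_ι (x y : A) : dR K x (ιS K A y) = ιS K A (y * x) := derD_ι _ _

theorem dL_add (x y : A) : dL K (x + y) = dL K x + dL K y :=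
  der_ext fun z => by rw [Derivation.add_apply, dL_ι, dL_ι, dL_ι, add_mul, map_add]

theorem dL_smul (c : K) (x : A) : dL K (c • x) = c • dL K x :=
  der_ext fun z => by rw [Derivation.smul_apply, dL_ι, dL_ι, smul_mul_assoc, map_smul]

theorem dL_neg (x : A) : dL K (-x) = - dL K x :=
  der_ext fun z => by rw [Derivation.neg_apply, dL_ι, dL_ι, neg_mul, map_neg]

theorem dL_sub (x y : A) : dL K (x - y) = dL K x - dL K y := by
  rw [sub_eq_add_neg, dL_add, dL_neg, ← sub_eq_add_neg]

theorem dR_add (x y : A) : dR K (x + y) = dR K x + dR K y :=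
  der_ext fun z => by rw [Derivation.add_apply, dR_ι, dR_ι, dR_ι, mul_add, map_add]

theorem dR_smul (c : K) (x : A) : dR K (c • x) = c • dR K x :=
  der_ext fun z => by rw [Derivation.smul_apply, dR_ι, dR_ι, mul_smul_comm, map_smul]

/-- left and right derivations commute -/
theorem dL_dR (x y : A) (ψ : Sy K A) : dL K x (dR K y ψ) = dR K y (dL K x ψ) := by
  have h : ⁅dL K x, dR K y⁆ = 0 := by
    refine der_ext fun z => ?_
    rw [Derivation.commutator_apply, dR_ι, dL_ι, dL_ι, dR_ι, mul_assoc, sub_self,
      Derivation.zero_apply]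
  have h1 := congrArg (fun D : Derivation K (Sy K A) (Sy K A) => D ψ) h
  simp only [Derivation.commutator_apply, Derivation.zero_apply] at h1
  exact sub_eq_zero.1 h1

theorem dL_lie (x y : A) (ψ : Sy K A) :
    dL K ⁅x, y⁆ ψ = dL K x (dL K y ψ) - dL K y (dL K x ψ) := by
  have h : dL K ⁅x, y⁆ = ⁅dL K x, dL K y⁆ := by
    refine der_ext fun z => ?_
    rw [Derivation.commutator_apply, dL_ι, dL_ι, dL_ι, dL_ι, dL_ι, ← map_sub,
      LieRing.of_associative_ring_bracket, sub_mul, mul_assoc, mul_assoc]
  rw [h, Derivation.commutator_apply]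

/-- the left action -/
noncomputable def lam (x : A) : Sy K A →ₗ[K] Sy K A :=
  LinearMap.mulLeft K (ιS K A x) + (dL K x : Sy K A →ₗ[K] Sy K A)

/-- the right action -/
noncomputable def rho (x : A) : Sy K A →ₗ[K] Sy K A :=
  LinearMap.mulLeft K (ιS K A x) + (dR K x : Sy K A →ₗ[K] Sy K A)

theorem lam_apply (x : A) (ψ : Sy K A) : lam K x ψ = ιS K A x * ψ + dL K x ψ := rfl

theorem rho_apply (x : A) (ψ : Sy K A) : rho K x ψ = ιS K A x * ψ + dR K x ψ := rfl

/-- the left and the right action commute -/
theorem lam_rho (x y : A) (ψ : Sy K A) :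
    lam K x (rho K y ψ) = rho K y (lam K x ψ) := by
  simp only [lam_apply, rho_apply, map_add, Derivation.leibniz, dL_ι, dR_ι, smul_eq_mul,
    dL_dR]
  ring

theorem lam_lie (x y : A) (ψ : Sy K A) :
    lam K ⁅x, y⁆ ψ = lam K x (lam K y ψ) - lam K y (lam K x ψ) := by
  rw [lam_apply, dL_lie]
  simp only [lam_apply, map_add, Derivation.leibniz, dL_ι, smul_eq_mul,
    LieRing.of_associative_ring_bracket, map_sub]
  ring

variable (A) in
/-- the Lie homomorphism of the left action -/
noncomputable def lamL : A →ₗ⁅K⁆ Module.End K (Sy K A) where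
  toFun := lam K
  map_add' := fun x y => by
    refine LinearMap.ext fun ψ => ?_
    rw [LinearMap.add_apply, lam_apply, lam_apply, lam_apply, dL_add, Derivation.add_apply,
      map_add]
    ring
  map_smul' := fun c x => by
    refine LinearMap.ext fun ψ => ?_
    rw [RingHom.id_apply, LinearMap.smul_apply, lam_apply, lam_apply, dL_smul,
      Derivation.smul_apply, map_smul, smul_add, smul_mul_assoc]
  map_lie' := fun {x y} => by
    refine LinearMap.ext fun ψ => ?_
    rw [LieRing.of_associative_ring_bracket]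
    exact lam_lie K x y ψ

variable (A) in
/-- the action of the enveloping algebra -/
noncomputable def act : Ue K A →ₐ[K] Module.End K (Sy K A) :=
  UniversalEnvelopingAlgebra.lift K (lamL K A)

theorem act_ι (x : A) (ψ : Sy K A) : act K A (ιU K A x) ψ = lam K x ψ := by
  have h := UniversalEnvelopingAlgebra.lift_ι_apply K (A := Module.End K (Sy K A)) (lamL K A) x
  exact congrArg (fun E : Module.End K (Sy K A) => E ψ) h

theorem act_rho (u : Ue K A) (y : A) (ψ : Sy K A) :
    act K A u (rho K y ψ) = rho K y (act K A u ψ) := by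
  have key : ∀ t : TensorAlgebra K A, ∀ ψ : Sy K A,
      act K A (pU t) (rho K y ψ) = rho K y (act K A (pU t) ψ) := by
    intro t
    induction t using TensorAlgebra.induction with
    | algebraMap r =>
      intro ψ
      rw [AlgHom.commutes, AlgHom.commutes, Algebra.algebraMap_eq_smul_one, LinearMap.smul_apply,
        LinearMap.smul_apply, Module.End.one_apply, Module.End.one_apply, map_smul]
    | ι x =>
      intro ψ
      rw [pU_ι, act_ι, act_ι, lam_rho]
    | mul a b ha hb =>
      intro ψ
      rw [map_mul, map_mul, Module.End.mul_apply, Module.End.mul_apply, hb, ha]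
    | add a b ha hb =>
      intro ψ
      rw [map_add, map_add, LinearMap.add_apply, LinearMap.add_apply, map_add, ha, hb]
  obtain ⟨t, rfl⟩ : ∃ t, pU t = u := RingCon.mk'_surjective _ u
  exact key t ψ

/-! ## the commutant of the right action -/

theorem deriv_prod {R : Type*} [CommRing R] [Algebra K R] (D : Derivation K R R) {J : Type*}
    [DecidableEq J] (s : Finset J) (f : J → R) :
    D (∏ i ∈ s, f i) = ∑ i ∈ s, (∏ j ∈ s.erase i, f j) * D (f i) := by
  induction s using Finset.induction_on with
  | empty => rw [Finset.prod_empty, Finset.sum_empty, Derivation.map_one_eq_zero]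
  | insert a s ha ih =>
    rw [Finset.prod_insert ha, Derivation.leibniz, ih, Finset.sum_insert ha,
      Finset.erase_insert ha, smul_eq_mul, smul_eq_mul, add_comm, Finset.mul_sum]
    congr 1
    refine Finset.sum_congr rfl fun i hi => ?_
    have h1 : (insert a s).erase i = insert a (s.erase i) := by
      rw [Finset.erase_insert_of_ne]
      rintro rfl
      exact ha hi
    rw [h1, Finset.prod_insert, mul_assoc]
    exact fun h => ha (Finset.mem_of_mem_erase h)

theorem dR_prod (x : A) {m : ℕ} (z : Fin m → A) :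
    dR K x (∏ i, ιS K A (z i)) = ∑ i, ∏ j, ιS K A (Function.update z i (z i * x) j) := by
  rw [deriv_prod]
  refine Finset.sum_congr rfl fun i _ => ?_
  rw [dR_ι, ← Finset.mul_prod_erase Finset.univ _ (Finset.mem_univ i),
    Function.update_self, mul_comm]
  congr 1
  refine Finset.prod_congr rfl fun j hj => ?_
  rw [Function.update_of_ne (Finset.ne_of_mem_erase hj)]

theorem dL_prod (x : A) {m : ℕ} (z : Fin m → A) :
    dL K x (∏ i, ιS K A (z i)) = ∑ i, ∏ j, ιS K A (Function.update z i (x * z i) j) := by
  rw [deriv_prod]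
  refine Finset.sum_congr rfl fun i _ => ?_
  rw [dL_ι, ← Finset.mul_prod_erase Finset.univ _ (Finset.mem_univ i),
    Function.update_self, mul_comm]
  congr 1
  refine Finset.prod_congr rfl fun j hj => ?_
  rw [Function.update_of_ne (Finset.ne_of_mem_erase hj)]

/-- the symmetric algebra is spanned by the products of letters -/
theorem span_prod : Submodule.span K
    (Set.range fun w : (Σ m : ℕ, Fin m → A) => ∏ i, ιS K A (w.2 i)) = ⊤ := by
  rw [eq_top_iff]
  intro F _
  induction F using SymmetricAlgebra.induction with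
  | algebraMap r =>
    rw [Algebra.algebraMap_eq_smul_one]
    refine Submodule.smul_mem _ r (Submodule.subset_span ⟨⟨0, Fin.elim0⟩, ?_⟩)
    simp only [Finset.univ_eq_empty, Finset.prod_empty]
  | ι x =>
    refine Submodule.subset_span ⟨⟨1, fun _ => x⟩, ?_⟩
    simp only [Fin.prod_univ_one]
  | add a b ha hb => exact add_mem (ha trivial) (hb trivial)
  | mul a b ha hb =>
    have h : a * b ∈ Submodule.span K
        (Set.range fun w : (Σ m : ℕ, Fin m → A) => ∏ i, ιS K A (w.2 i)) *
        Submodule.span K (Set.range fun w : (Σ m : ℕ, Fin m → A) => ∏ i, ιS K A (w.2 i)) :=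
      Submodule.mul_mem_mul (ha trivial) (hb trivial)
    rw [Submodule.span_mul_span] at h
    refine Submodule.span_mono ?_ h
    rintro _ ⟨_, ⟨⟨m, z⟩, rfl⟩, _, ⟨⟨m', z'⟩, rfl⟩, rfl⟩
    refine ⟨⟨m + m', Fin.append z z'⟩, ?_⟩
    simp only [Fin.prod_univ_add, Fin.append_left, Fin.append_right]

/-- an operator which commutes with the right action is determined by its value at `1` -/
theorem eq_zero_of_comm {D : Sy K A →ₗ[K] Sy K A}
    (hD : ∀ x ψ, D (rho K x ψ) = rho K x (D ψ)) (h1 : D 1 = 0) : D = 0 := by
  have key : ∀ (m : ℕ) (z : Fin m → A), D (∏ i, ιS K A (z i)) = 0 := by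
    intro m
    induction m with
    | zero =>
      intro z
      rw [Finset.univ_eq_empty, Finset.prod_empty, h1]
    | succ m ih =>
      intro z
      have h2 : (∏ i, ιS K A (z i)) = rho K (z 0) (∏ i : Fin m, ιS K A (z i.succ)) -
          dR K (z 0) (∏ i : Fin m, ιS K A (z i.succ)) := by
        rw [rho_apply, add_sub_cancel_right, Fin.prod_univ_succ]
      rw [h2, map_sub, hD, ih, map_zero, zero_sub, neg_eq_zero,
        dR_prod K (z 0) fun i : Fin m => z i.succ, map_sum]
      exact Finset.sum_eq_zero fun i _ => ih _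
  refine LinearMap.ext fun ψ => ?_
  have h3 : ψ ∈ Submodule.span K
      (Set.range fun w : (Σ m : ℕ, Fin m → A) => ∏ i, ιS K A (w.2 i)) := by
    rw [span_prod]
    trivial
  rw [LinearMap.zero_apply]
  refine Submodule.span_induction ?_ ?_ ?_ ?_ h3
  · rintro _ ⟨⟨m, z⟩, rfl⟩
    exact key m z
  · exact map_zero _
  · intro a b _ _ ha hb
    rw [map_add, ha, hb, add_zero]
  · intro c a _ ha
    rw [map_smul, ha, smul_zero]

theorem eq_of_comm {D D' : Sy K A →ₗ[K] Sy K A}
    (hD : ∀ x ψ, D (rho K x ψ) = rho K x (D ψ)) (hD' : ∀ x ψ, D' (rho K x ψ) = rho K x (D' ψ))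
    (h1 : D 1 = D' 1) : D = D' := by
  rw [← sub_eq_zero]
  refine eq_zero_of_comm K (fun x ψ => ?_) ?_
  · rw [LinearMap.sub_apply, LinearMap.sub_apply, hD, hD', map_sub]
  · rw [LinearMap.sub_apply, h1, sub_self]

end Pool.Agent.helper90.MF
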