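import Mathlib
import Pool.Agent.helper90.MF.Act

/-!
# The action on the symmetric algebra is faithful at `1`; the normal ordering map
-/

set_option autoImplicit false

namespace Pool.Agent.helper90.MF

open Pool.Agent.helper5.AS

attribute [local instance 100] LieRing.ofAssociativeRing

variable (K : Type*) [Field K] {A : Type*} [Ring A] [Algebra K A]

variable (A) in
/-- the polynomials of degree less than `n` -/
noncomputable def lowS (n : ℕ) : Submodule K (Sy K A) :=
  Submodule.span K {F | ∃ m < n, ∃ z : Fin m → A, F = ∏ i, ιS K A (z i)}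

theorem prod_mem_lowS {n m : ℕ} (h : m < n) (z : Fin m → A) :
    ∏ i, ιS K A (z i) ∈ lowS K A n := Submodule.subset_span ⟨m, h, z, rfl⟩

theorem lowS_mono {m n : ℕ} (h : m ≤ n) : lowS K A m ≤ lowS K A n :=
  Submodule.span_mono fun _ ⟨k, hk, z, hz⟩ => ⟨k, hk.trans_le h, z, hz⟩

theorem ι_mul_lowS {n : ℕ} (x : A) {F : Sy K A} (hF : F ∈ lowS K A n) :
    ιS K A x * F ∈ lowS K A (n + 1) := by
  refine Submodule.span_induction ?_ ?_ ?_ ?_ hF
  · rintro _ ⟨m, hm, z, rfl⟩
    have h : ιS K A x * ∏ i, ιS K A (z i) =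
        ∏ i, ιS K A ((Fin.cons x z : Fin (m + 1) → A) i) := by
      rw [Fin.prod_univ_succ]
      simp only [Fin.cons_zero, Fin.cons_succ]
    rw [h]
    exact prod_mem_lowS K (by omega) _
  · rw [mul_zero]
    exact zero_mem _
  · intro a b _ _ ha hb
    rw [mul_add]
    exact add_mem ha hb
  · intro c a _ ha
    rw [mul_smul_comm]
    exact Submodule.smul_mem _ c ha

theorem dL_lowS {n : ℕ} (x : A) {F : Sy K A} (hF : F ∈ lowS K A n) :
    dL K x F ∈ lowS K A n := by
  refine Submodule.span_induction ?_ ?_ ?_ ?_ hF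
  · rintro _ ⟨m, hm, z, rfl⟩
    rw [dL_prod]
    exact sum_mem fun i _ => prod_mem_lowS K hm _
  · rw [map_zero]
    exact zero_mem _
  · intro a b _ _ ha hb
    rw [map_add]
    exact add_mem ha hb
  · intro c a _ ha
    rw [Derivation.map_smul]
    exact Submodule.smul_mem _ c ha

theorem lam_lowS {n : ℕ} (x : A) {F : Sy K A} (hF : F ∈ lowS K A n) :
    lam K x F ∈ lowS K A (n + 1) := by
  rw [lam_apply]
  exact add_mem (ι_mul_lowS K x hF) (lowS_mono K (Nat.le_succ n) (dL_lowS K x hF))

theorem imS_le_lowS (n : ℕ) : imS K A ^ n ≤ lowS K A (n + 1) := by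
  induction n with
  | zero =>
    intro F hF
    rw [pow_zero] at hF
    obtain ⟨c, rfl⟩ := Submodule.mem_one.1 hF
    rw [Algebra.algebraMap_eq_smul_one]
    refine Submodule.smul_mem _ c ?_
    have h := prod_mem_lowS K (show 0 < 0 + 1 by omega) (Fin.elim0 : Fin 0 → A)
    simpa using h
  | succ n ih =>
    rw [pow_succ', Submodule.mul_le]
    rintro _ ⟨x, rfl⟩ F hF
    exact ι_mul_lowS K x (ih hF)

theorem prod_mem_imS {m : ℕ} (z : Fin m → A) : ∏ i, ιS K A (z i) ∈ imS K A ^ m := by
  induction m with
  | zero =>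
    rw [pow_zero, Finset.univ_eq_empty, Finset.prod_empty]
    exact Submodule.one_le.1 le_rfl
  | succ m ih =>
    rw [Fin.prod_univ_succ, pow_succ']
    exact Submodule.mul_mem_mul ⟨z 0, rfl⟩ (ih _)

theorem eq_zero_of_lowS {n : ℕ} {F : Sy K A} (h1 : F ∈ imS K A ^ n) (h2 : F ∈ lowS K A n) :
    F = 0 := by
  have h3 : comp n F = 0 := by
    refine Submodule.span_induction ?_ ?_ ?_ ?_ h2
    · rintro _ ⟨m, hm, z, rfl⟩
      rw [comp_of_mem (prod_mem_imS K z), if_neg hm.ne']
    · exact map_zero _
    · intro a b _ _ ha hb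
      rw [map_add, ha, hb, add_zero]
    · intro c a _ ha
      rw [map_smul, ha, smul_zero]
  rw [comp_of_mem h1, if_pos rfl] at h3
  exact h3

theorem act_lowU {n : ℕ} {u : Ue K A} (hu : u ∈ lowU K A n) : act K A u 1 ∈ lowS K A n := by
  cases n with
  | zero =>
    rw [lowU_zero, Submodule.mem_bot] at hu
    rw [hu, map_zero, LinearMap.zero_apply]
    exact zero_mem _
  | succ n =>
    induction n generalizing u with
    | zero =>
      rw [lowU_succ, pow_zero] at hu
      obtain ⟨c, rfl⟩ := Submodule.mem_one.1 hu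
      rw [AlgHom.commutes, Algebra.algebraMap_eq_smul_one, LinearMap.smul_apply,
        Module.End.one_apply]
      refine Submodule.smul_mem _ c ?_
      have h := prod_mem_lowS K (show 0 < 0 + 1 by omega) (Fin.elim0 : Fin 0 → A)
      simpa using h
    | succ n ih =>
      rw [lowU_succ, pow_succ'] at hu
      refine Submodule.mul_induction_on hu ?_ ?_
      · intro w hw v hv
        obtain ⟨w1, hw1, w2, ⟨x, rfl⟩, rfl⟩ := Submodule.mem_sup.1 hw
        obtain ⟨c, rfl⟩ := Submodule.mem_one.1 hw1
        have h := ih hv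
        rw [map_mul, Module.End.mul_apply, map_add, LinearMap.add_apply, act_ι,
          AlgHom.commutes, Algebra.algebraMap_eq_smul_one, LinearMap.smul_apply,
          Module.End.one_apply]
        exact add_mem (Submodule.smul_mem _ c (lowS_mono K (Nat.le_succ _) h))
          (lam_lowS K x h)
      · intro v w hv hw
        rw [map_add, LinearMap.add_apply]
        exact add_mem hv hw

theorem act_top {n : ℕ} {t : TensorAlgebra K A} (ht : t ∈ imT K A ^ n) :
    act K A (pU t) 1 - pS t ∈ lowS K A n := by
  induction n generalizing t with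
  | zero =>
    rw [pow_zero] at ht
    obtain ⟨c, rfl⟩ := Submodule.mem_one.1 ht
    rw [AlgHom.commutes, AlgHom.commutes, AlgHom.commutes, Algebra.algebraMap_eq_smul_one,
      Algebra.algebraMap_eq_smul_one, LinearMap.smul_apply, Module.End.one_apply, sub_self]
    exact zero_mem _
  | succ n ih =>
    rw [pow_succ'] at ht
    refine Submodule.mul_induction_on ht ?_ ?_
    · rintro _ ⟨x, rfl⟩ t ht
      have h := ih ht
      have h1 := act_lowU K (pU_mem ht)
      rw [map_mul (pU (𝕜 := K) (L := A)), map_mul (act K A), Module.End.mul_apply, pU_ι, act_ι,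
        lam_apply, map_mul (pS (𝕜 := K) (L := A)), pS_ι, add_sub_right_comm, ← mul_sub]
      exact add_mem (ι_mul_lowS K x h) (dL_lowS K x h1)
    · intro v w hv hw
      rw [map_add, map_add, map_add, LinearMap.add_apply, add_sub_add_comm]
      exact add_mem hv hw

/-- the value at `1` has the symbol as top component -/
theorem act_symbol {n : ℕ} {a : Sy K A} {u : Ue K A} (h : IsSymbol n a u) :
    act K A u 1 - a ∈ lowS K A n := by
  obtain ⟨t, ht, rfl, h2⟩ := h
  have h3 := act_lowU K h2
  rw [map_sub, LinearMap.sub_apply] at h3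
  have h4 := add_mem h3 (act_top K ht)
  rwa [sub_add_sub_cancel] at h4

/-- the action is faithful at `1` -/
theorem eq_zero_of_act [CharZero K] {u : Ue K A} (h : act K A u 1 = 0) : u = 0 := by
  obtain ⟨n, hn⟩ := exists_mem_lowU u
  induction n with
  | zero => rwa [lowU_zero, Submodule.mem_bot] at hn
  | succ n ih =>
    obtain ⟨a, ha⟩ := exists_symbol hn
    have h1 := act_symbol K ha
    rw [h, zero_sub, neg_mem_iff] at h1
    have h2 := eq_zero_of_lowS K ha.mem_sym h1
    rw [h2] at ha
    exact ih ha.low_of_zero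

theorem act_surj (F : Sy K A) : ∃ u : Ue K A, act K A u 1 = F := by
  have key : ∀ (m : ℕ) (z : Fin m → A), ∃ u : Ue K A, act K A u 1 = ∏ i, ιS K A (z i) := by
    intro m
    induction m with
    | zero =>
      intro z
      exact ⟨1, by rw [map_one (act K A), Module.End.one_apply, Finset.univ_eq_empty,
        Finset.prod_empty]⟩
    | succ m ih =>
      intro z
      choose f hf using ih
      refine ⟨ιU K A (z 0) * f (fun i => z i.succ) -
        ∑ i, f (Function.update (fun i : Fin m => z i.succ) i (z 0 * z i.succ)), ?_⟩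
      rw [map_sub, LinearMap.sub_apply, map_mul, Module.End.mul_apply, act_ι, hf, lam_apply,
        dL_prod K (z 0) fun i : Fin m => z i.succ, map_sum, LinearMap.sum_apply]
      simp only [hf]
      rw [add_sub_cancel_right, Fin.prod_univ_succ]
  have h3 : F ∈ Submodule.span K
      (Set.range fun w : (Σ m : ℕ, Fin m → A) => ∏ i, ιS K A (w.2 i)) := by
    rw [span_prod]
    trivial
  refine Submodule.span_induction ?_ ?_ ?_ ?_ h3
  · rintro _ ⟨⟨m, z⟩, rfl⟩
    exact key m z
  · exact ⟨0, by rw [map_zero, LinearMap.zero_apply]⟩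
  · rintro a b _ _ ⟨u, hu⟩ ⟨v, hv⟩
    exact ⟨u + v, by rw [map_add, LinearMap.add_apply, hu, hv]⟩
  · rintro c a _ ⟨u, hu⟩
    exact ⟨c • u, by rw [map_smul, LinearMap.smul_apply, hu]⟩

/-- `u ↦ u · 1` -/
noncomputable def actOne [CharZero K] : Ue K A ≃ₗ[K] Sy K A :=
  LinearEquiv.ofBijective ((LinearMap.applyₗ (1 : Sy K A)) ∘ₗ (act K A).toLinearMap) (by
    constructor
    · rw [← LinearMap.ker_eq_bot, LinearMap.ker_eq_bot']
      exact fun u hu => eq_zero_of_act K hu
    · exact fun F => act_surj K F)

theorem actOne_apply [CharZero K] (u : Ue K A) : actOne K u = act K A u 1 := rfl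

/-- the normal ordering map -/
noncomputable def nord [CharZero K] : Sy K A →ₗ[K] Ue K A := (actOne K).symm.toLinearMap

theorem act_nord [CharZero K] (F : Sy K A) : act K A (nord K F) 1 = F :=
  (actOne K).apply_symm_apply F

theorem nord_of_act [CharZero K] {u : Ue K A} {F : Sy K A} (h : act K A u 1 = F) :
    nord K F = u := by
  rw [← h]
  exact (actOne K).symm_apply_apply u

/-- two elements commute if they do so at `1` -/
theorem commute_of_act [CharZero K] {u v : Ue K A}
    (h : act K A u (act K A v 1) = act K A v (act K A u 1)) : Commute u v := by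
  have h1 : u * v - v * u = 0 := by
    refine eq_zero_of_act K ?_
    rw [map_sub, map_mul, map_mul, LinearMap.sub_apply, Module.End.mul_apply,
      Module.End.mul_apply, h, sub_self]
  exact sub_eq_zero.1 h1

/-- an operator which commutes with the right action is the action of an element -/
theorem act_nord_eq [CharZero K] {D : Sy K A →ₗ[K] Sy K A}
    (hD : ∀ x ψ, D (rho K x ψ) = rho K x (D ψ)) : act K A (nord K (D 1)) = D :=
  eq_of_comm K (fun x ψ => act_rho K _ x ψ) hD (act_nord K _)

end Pool.Agent.helper90.MF
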