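import Mathlib
import Pool.Agent.helper90.MF.Faith

/-!
# The operator of a normally ordered product of letters

For letters `y j` and constants `c j` (`j : J`) the operator of `: ∏ j, (y j + c j) :` maps `ψ` to
the coefficient of `∏ j, ε j` in `∏ j, (1 + ε j (ι (y j) + c j)) * ψ (x + ∑ j, ε j (y j x))`.
-/

set_option autoImplicit false
set_option linter.unusedSectionVars false

namespace Pool.Agent.helper90.MF

open Pool.Agent.helper5.AS Finset

attribute [local instance 100] LieRing.ofAssociativeRing

/-! ## extension of a derivation to the coefficients of a polynomial -/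

section CoeffDer

variable {K : Type*} [Field K] {R : Type*} [CommRing R] [Algebra K R] {J : Type*}

/-- the derivation applied to the coefficients -/
noncomputable def cDer (D : Derivation K R R) (q : MvPolynomial J R) : MvPolynomial J R :=
  ∑ m ∈ q.support, MvPolynomial.monomial m (D (q.coeff m))

theorem coeff_cDer (D : Derivation K R R) (q : MvPolynomial J R) (m : J →₀ ℕ) :
    (cDer D q).coeff m = D (q.coeff m) := by
  classical
  rw [cDer, MvPolynomial.coeff_sum]
  simp only [MvPolynomial.coeff_monomial]
  rw [Finset.sum_ite_eq' q.support m fun m => D (q.coeff m)]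
  split_ifs with h
  · rfl
  · rw [MvPolynomial.notMem_support_iff.1 h, map_zero]

theorem cDer_add (D : Derivation K R R) (p q : MvPolynomial J R) :
    cDer D (p + q) = cDer D p + cDer D q := by
  ext m
  rw [MvPolynomial.coeff_add, coeff_cDer, coeff_cDer, coeff_cDer, MvPolynomial.coeff_add, map_add]

theorem cDer_mul (D : Derivation K R R) (p q : MvPolynomial J R) :
    cDer D (p * q) = p * cDer D q + q * cDer D p := by
  classical
  ext m
  rw [MvPolynomial.coeff_add, coeff_cDer, MvPolynomial.coeff_mul, mul_comm q,
    MvPolynomial.coeff_mul, MvPolynomial.coeff_mul, map_sum, ← Finset.sum_add_distrib]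
  refine Finset.sum_congr rfl fun x _ => ?_
  rw [Derivation.leibniz, coeff_cDer, coeff_cDer, smul_eq_mul, smul_eq_mul]
  ring

theorem cDer_C (D : Derivation K R R) (a : R) :
    cDer D (MvPolynomial.C a : MvPolynomial J R) = MvPolynomial.C (D a) := by
  classical
  ext m
  rw [coeff_cDer, MvPolynomial.coeff_C, MvPolynomial.coeff_C]
  split_ifs
  · rfl
  · exact map_zero D

theorem cDer_X (D : Derivation K R R) (j : J) :
    cDer D (MvPolynomial.X j : MvPolynomial J R) = 0 := by
  classical
  ext m
  rw [coeff_cDer, MvPolynomial.coeff_X, MvPolynomial.coeff_zero]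
  split_ifs
  · exact Derivation.map_one_eq_zero D
  · exact map_zero D

theorem cDer_zero (D : Derivation K R R) : cDer D (0 : MvPolynomial J R) = 0 := by
  ext m
  rw [coeff_cDer, MvPolynomial.coeff_zero, map_zero]

theorem cDer_one (D : Derivation K R R) : cDer D (1 : MvPolynomial J R) = 0 := by
  rw [← MvPolynomial.C_1, cDer_C, Derivation.map_one_eq_zero, MvPolynomial.C_0]

theorem cDer_sum (D : Derivation K R R) {S : Type*} (s : Finset S) (f : S → MvPolynomial J R) :
    cDer D (∑ i ∈ s, f i) = ∑ i ∈ s, cDer D (f i) := by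
  classical
  induction s using Finset.induction_on with
  | empty => rw [Finset.sum_empty, Finset.sum_empty, cDer_zero]
  | insert a s ha ih => rw [Finset.sum_insert ha, Finset.sum_insert ha, cDer_add, ih]

theorem cDer_prod (D : Derivation K R R) {S : Type*} [DecidableEq S] (s : Finset S)
    (f : S → MvPolynomial J R) :
    cDer D (∏ i ∈ s, f i) = ∑ i ∈ s, (∏ j ∈ s.erase i, f j) * cDer D (f i) := by
  induction s using Finset.induction_on with
  | empty => rw [Finset.prod_empty, Finset.sum_empty, cDer_one]
  | insert a s ha ih =>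
    rw [Finset.prod_insert ha, cDer_mul, ih, Finset.sum_insert ha,
      Finset.erase_insert ha, add_comm, Finset.mul_sum]
    congr 1
    refine Finset.sum_congr rfl fun i hi => ?_
    have h1 : (insert a s).erase i = insert a (s.erase i) := by
      rw [Finset.erase_insert_of_ne]
      rintro rfl
      exact ha hi
    rw [h1, Finset.prod_insert, mul_assoc]
    exact fun h => ha (Finset.mem_of_mem_erase h)

end CoeffDer

/-! ## the coefficient of the product of all variables -/

section Kap

variable {R : Type*} [CommRing R] {J : Type*} [Fintype J] [DecidableEq J]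

variable (J) in
/-- the exponent of the product of all variables -/
noncomputable def allOne : J →₀ ℕ := ∑ j : J, Finsupp.single j 1

theorem allOne_apply (j : J) : allOne J j = 1 := by
  rw [allOne, Finsupp.finsetSum_apply, Finset.sum_eq_single j]
  · exact Finsupp.single_eq_same
  · intro i _ hi
    exact Finsupp.single_eq_of_ne hi.symm
  · exact fun h => absurd (mem_univ j) h

/-- the coefficient of the product of all variables -/
noncomputable def kap (q : MvPolynomial J R) : R := q.coeff (allOne J)

theorem kap_add (p q : MvPolynomial J R) : kap (p + q) = kap p + kap q :=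
  MvPolynomial.coeff_add _ _ _

theorem kap_sub (p q : MvPolynomial J R) : kap (p - q) = kap p - kap q :=
  MvPolynomial.coeff_sub J _ _ _

theorem kap_C_mul (a : R) (q : MvPolynomial J R) : kap (MvPolynomial.C a * q) = a * kap q :=
  MvPolynomial.coeff_C_mul _ _ _

theorem kap_sum {S : Type*} (s : Finset S) (f : S → MvPolynomial J R) :
    kap (∑ i ∈ s, f i) = ∑ i ∈ s, kap (f i) := by
  rw [kap, MvPolynomial.coeff_sum]
  rfl

/-- the square of a variable does not contribute -/
theorem kap_sq (j : J) (q : MvPolynomial J R) :
    kap (MvPolynomial.X j * (MvPolynomial.X j * q)) = 0 := by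
  rw [kap, MvPolynomial.coeff_X_mul']
  split_ifs with h
  · rw [MvPolynomial.coeff_X_mul', if_neg]
    rw [Finsupp.mem_support_iff, not_not, Finsupp.tsub_apply, Finsupp.single_eq_same,
      allOne_apply, Nat.sub_self]
  · rfl

theorem kap_prod (q : J → ℕ → R) (N : ℕ) (hN : 2 ≤ N) :
    kap (∏ j : J, ∑ k ∈ range N, MvPolynomial.monomial (Finsupp.single j k) (q j k)) =
      ∏ j : J, q j 1 := by
  rw [Finset.prod_univ_sum, kap_sum, Finset.sum_eq_single (fun _ : J => 1)]
  · rw [kap, ← MvPolynomial.monomial_sum_prod, MvPolynomial.coeff_monomial]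
    exact if_pos rfl
  · intro p _ hp
    rw [kap, ← MvPolynomial.monomial_sum_prod, MvPolynomial.coeff_monomial, if_neg]
    intro h
    refine hp (funext fun j => ?_)
    have h1 := congrArg (fun m : J →₀ ℕ => m j) h
    simp only [allOne_apply] at h1
    rw [Finsupp.finsetSum_apply, Finset.sum_eq_single j] at h1
    · rwa [Finsupp.single_eq_same] at h1
    · intro i _ hi
      exact Finsupp.single_eq_of_ne hi.symm
    · exact fun h => absurd (mem_univ j) h
  · intro h
    exact absurd (Fintype.mem_piFinset.2 fun _ => mem_range.2 (by omega)) h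

/-- the product of linear factors -/
theorem kap_lin (a b : J → R) :
    kap (∏ j : J, (MvPolynomial.C (a j) + MvPolynomial.X j * MvPolynomial.C (b j))) =
      ∏ j : J, b j := by
  have h := kap_prod (fun j k => if k = 0 then a j else b j) 2 le_rfl
  simp only [one_ne_zero, if_false] at h
  rw [← h]
  congr 1
  refine Finset.prod_congr rfl fun j _ => ?_
  rw [Finset.sum_range_succ, Finset.sum_range_one, if_pos rfl, if_neg one_ne_zero,
    Finsupp.single_zero, MvPolynomial.C_apply, MvPolynomial.X, MvPolynomial.C_apply,
    MvPolynomial.monomial_mul, add_zero, one_mul]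

/-- the product of products of two linear factors -/
theorem kap_lin2 (a b c d : J → R) :
    kap ((∏ j : J, (MvPolynomial.C (a j) + MvPolynomial.X j * MvPolynomial.C (b j))) *
      ∏ j : J, (MvPolynomial.C (c j) + MvPolynomial.X j * MvPolynomial.C (d j))) =
      ∏ j : J, (a j * d j + b j * c j) := by
  have h := kap_prod (fun j k => if k = 0 then a j * c j else if k = 1 then
    a j * d j + b j * c j else b j * d j) 3 (by norm_num)
  simp only [one_ne_zero, if_false, if_true] at h
  rw [← h, ← Finset.prod_mul_distrib]
  congr 1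
  refine Finset.prod_congr rfl fun j _ => ?_
  rw [Finset.sum_range_succ, Finset.sum_range_succ, Finset.sum_range_one, if_pos rfl,
    if_neg one_ne_zero, if_pos rfl, if_neg two_ne_zero, if_neg (by norm_num : ¬ (2 = 1)),
    Finsupp.single_zero]
  have h1 : ∀ (k : ℕ) (r : R), MvPolynomial.monomial (Finsupp.single j k) r =
      MvPolynomial.C r * MvPolynomial.X j ^ k := fun k r => by
    rw [MvPolynomial.X_pow_eq_monomial, MvPolynomial.C_mul_monomial, mul_one]
  rw [h1, h1, ← MvPolynomial.C_apply]
  simp only [map_add, map_mul]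
  ring

end Kap

/-! ## the operator -/

section Op

variable (K : Type*) [Field K] {A : Type*} [Ring A] [Algebra K A] {J : Type*} [Fintype J]
  [DecidableEq J]

omit [Fintype J] [DecidableEq J] in
theorem C_smul' (c : K) (p : Sy K A) :
    (MvPolynomial.C (c • p) : MvPolynomial J (Sy K A)) = c • MvPolynomial.C p := by
  classical
  ext m
  rw [MvPolynomial.coeff_smul, MvPolynomial.coeff_C, MvPolynomial.coeff_C]
  split_ifs
  · rfl
  · rw [smul_zero]

/-- the substitution `x ↦ x + ∑ j, ε j (y j x)` -/
noncomputable def xi (y : J → A) : Sy K A →ₐ[K] MvPolynomial J (Sy K A) :=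
  SymmetricAlgebra.lift
    { toFun := fun z => MvPolynomial.C (ιS K A z) +
        ∑ j, MvPolynomial.X j * MvPolynomial.C (ιS K A (y j * z))
      map_add' := fun a b => by
        simp only [mul_add, map_add, Finset.sum_add_distrib]
        ring
      map_smul' := fun c a => by
        simp only [mul_smul_comm, map_smul, RingHom.id_apply, smul_add, Finset.smul_sum,
          C_smul'] }

theorem xi_ι (y : J → A) (z : A) : xi K y (ιS K A z) = MvPolynomial.C (ιS K A z) +
    ∑ j, MvPolynomial.X j * MvPolynomial.C (ιS K A (y j * z)) := by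
  rw [xi, SymmetricAlgebra.lift_ι_apply]
  rfl

/-- the letters `y j + c j` -/
noncomputable def letter (y : J → A) (c : J → K) (j : J) : Sy K A :=
  ιS K A (y j) + algebraMap K _ (c j)

theorem dR_letter (x : A) (y : J → A) (c : J → K) (j : J) :
    dR K x (letter K y c j) = ιS K A (y j * x) := by
  rw [letter, map_add, dR_ι, Derivation.map_algebraMap, add_zero]

/-- the prefactor -/
noncomputable def pre (y : J → A) (c : J → K) : MvPolynomial J (Sy K A) :=
  ∏ j, (1 + MvPolynomial.X j * MvPolynomial.C (letter K y c j))

/-- the operator of the normally ordered product -/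
noncomputable def G (y : J → A) (c : J → K) : Sy K A →ₗ[K] Sy K A where
  toFun := fun ψ => kap (pre K y c * xi K y ψ)
  map_add' := fun a b => by rw [map_add, mul_add, kap_add]
  map_smul' := fun r a => by
    rw [map_smul, RingHom.id_apply, mul_smul_comm, kap, kap]
    rfl

theorem G_apply (y : J → A) (c : J → K) (ψ : Sy K A) :
    G K y c ψ = kap (pre K y c * xi K y ψ) := rfl

theorem G_one (y : J → A) (c : J → K) : G K y c 1 = ∏ j, letter K y c j := by
  have h := kap_lin (fun _ => 1) (letter K y c)
  rw [G_apply, map_one, mul_one, pre, ← h]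
  simp only [map_one]

theorem xi_dR (y : J → A) (x : A) (ψ : Sy K A) :
    xi K y (dR K x ψ) = cDer (dR K x) (xi K y ψ) := by
  induction ψ using SymmetricAlgebra.induction with
  | algebraMap r =>
    rw [Derivation.map_algebraMap, map_zero, AlgHom.commutes]
    have h : (algebraMap K (MvPolynomial J (Sy K A))) r =
        MvPolynomial.C (algebraMap K (Sy K A) r) := rfl
    rw [h, cDer_C, Derivation.map_algebraMap, map_zero]
  | ι z =>
    rw [dR_ι, xi_ι, xi_ι, cDer_add, cDer_C, cDer_sum, dR_ι]
    congr 1
    refine Finset.sum_congr rfl fun j _ => ?_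
    rw [cDer_mul, cDer_X, mul_zero, add_zero, cDer_C, dR_ι, mul_assoc]
  | mul a b ha hb =>
    rw [Derivation.leibniz, map_add, smul_eq_mul, smul_eq_mul, map_mul, map_mul, ha, hb, map_mul,
      cDer_mul]
  | add a b ha hb => rw [map_add, map_add, ha, hb, map_add, cDer_add]

theorem kap_cDer (D : Derivation K (Sy K A) (Sy K A)) (q : MvPolynomial J (Sy K A)) :
    kap (cDer D q) = D (kap q) := coeff_cDer _ _ _

theorem G_rho (y : J → A) (c : J → K) (x : A) (ψ : Sy K A) :
    G K y c (rho K x ψ) = rho K x (G K y c ψ) := by
  rw [rho_apply, rho_apply, map_add, G_apply, G_apply, G_apply, map_mul, xi_ι, xi_dR,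
    ← kap_C_mul, ← kap_cDer, ← kap_add, ← kap_add, ← sub_eq_zero, ← kap_sub, cDer_mul]
  have h1 : cDer (dR K x) (pre K y c) = ∑ j, (∏ i ∈ univ.erase j,
      (1 + MvPolynomial.X i * MvPolynomial.C (letter K y c i))) *
        (MvPolynomial.X j * MvPolynomial.C (ιS K A (y j * x))) := by
    rw [pre, cDer_prod]
    refine Finset.sum_congr rfl fun j _ => ?_
    rw [cDer_add, cDer_one, zero_add, cDer_mul, cDer_X, mul_zero, add_zero, cDer_C, dR_letter]
  have h2 : ∀ j, pre K y c = (1 + MvPolynomial.X j * MvPolynomial.C (letter K y c j)) *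
      ∏ i ∈ univ.erase j, (1 + MvPolynomial.X i * MvPolynomial.C (letter K y c i)) := fun j => by
    rw [pre, Finset.mul_prod_erase univ
      (fun i => 1 + MvPolynomial.X i * MvPolynomial.C (letter K y c i)) (mem_univ j)]
  have h3 : pre K y c * ((MvPolynomial.C (ιS K A x) +
      ∑ j, MvPolynomial.X j * MvPolynomial.C (ιS K A (y j * x))) * xi K y ψ) +
      pre K y c * cDer (dR K x) (xi K y ψ) -
      (MvPolynomial.C (ιS K A x) * (pre K y c * xi K y ψ) +
        (pre K y c * cDer (dR K x) (xi K y ψ) + xi K y ψ * cDer (dR K x) (pre K y c))) =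
      ∑ j, (pre K y c * (MvPolynomial.X j * MvPolynomial.C (ιS K A (y j * x))) -
        (∏ i ∈ univ.erase j,
      (1 + MvPolynomial.X i * MvPolynomial.C (letter K y c i))) *
        (MvPolynomial.X j * MvPolynomial.C (ιS K A (y j * x)))) * xi K y ψ := by
    rw [h1, ← Finset.sum_mul, Finset.sum_sub_distrib, ← Finset.mul_sum]
    ring
  rw [h3, kap_sum]
  refine Finset.sum_eq_zero fun j _ => ?_
  rw [h2 j]
  have h4 : ((1 + MvPolynomial.X j * MvPolynomial.C (letter K y c j)) *
      (∏ i ∈ univ.erase j, (1 + MvPolynomial.X i * MvPolynomial.C (letter K y c i))) *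
      (MvPolynomial.X j * MvPolynomial.C (ιS K A (y j * x))) -
      (∏ i ∈ univ.erase j, (1 + MvPolynomial.X i * MvPolynomial.C (letter K y c i))) *
      (MvPolynomial.X j * MvPolynomial.C (ιS K A (y j * x)))) * xi K y ψ =
      MvPolynomial.X j * (MvPolynomial.X j * (MvPolynomial.C (letter K y c j) *
        (∏ i ∈ univ.erase j, (1 + MvPolynomial.X i * MvPolynomial.C (letter K y c i))) *
        MvPolynomial.C (ιS K A (y j * x)) * xi K y ψ)) := by
    ring
  rw [h4, kap_sq]

end Op

end Pool.Agent.helper90.MF
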