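import Mathlib
import Pool.Agent.helper90.MF.NormOp
import Pool.Agent.helper90.MF.DetComm

/-!
# The normally ordered determinants commute
-/

set_option autoImplicit false

namespace Pool.Agent.helper90.MF

open Pool.Agent.helper5.AS Finset

attribute [local instance 100] LieRing.ofAssociativeRing

variable (K : Type*) [Field K] {n : Type*} [Fintype n] [DecidableEq n]

/-- the generator matrix of `S(gl_n)` -/
noncomputable def genE : Matrix n n (Sy K (Matrix n n K)) :=
  Matrix.of fun i j => ιS K (Matrix n n K) (Matrix.single i j 1)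

/-- the shifted generator matrix -/
noncomputable def EL (L : Matrix n n K) : Matrix n n (Sy K (Matrix n n K)) :=
  Matrix.of fun i j => ιS K (Matrix n n K) (Matrix.single i j 1) + algebraMap K _ (L i j)

/-- the letters of a permutation -/
def yσ (σ : Equiv.Perm n) (j : n) : Matrix n n K := Matrix.single (σ j) j 1

/-- the operator of the normally ordered determinant -/
noncomputable def DL (L : Matrix n n K) :
    Sy K (Matrix n n K) →ₗ[K] Sy K (Matrix n n K) :=
  ∑ σ : Equiv.Perm n, (Equiv.Perm.sign σ : ℤ) • G K (yσ K σ) fun j => L (σ j) j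

theorem DL_apply (L : Matrix n n K) (ψ : Sy K (Matrix n n K)) :
    DL K L ψ = ∑ σ : Equiv.Perm n, (Equiv.Perm.sign σ : ℤ) •
      G K (yσ K σ) (fun j => L (σ j) j) ψ := by
  rw [DL, LinearMap.sum_apply]
  rfl

theorem DL_one (L : Matrix n n K) : DL K L 1 = (EL K L).det := by
  rw [DL_apply, Matrix.det_apply]
  refine Finset.sum_congr rfl fun σ _ => ?_
  rw [G_one]
  rfl

theorem DL_rho (L : Matrix n n K) (x : Matrix n n K) (ψ : Sy K (Matrix n n K)) :
    DL K L (rho K x ψ) = rho K x (DL K L ψ) := by
  rw [DL_apply, DL_apply, map_sum]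
  refine Finset.sum_congr rfl fun σ _ => ?_
  rw [G_rho, map_zsmul]

theorem act_nord_det [CharZero K] (L : Matrix n n K) :
    act K _ (nord K (EL K L).det) = DL K L := by
  rw [← DL_one]
  exact act_nord_eq K (DL_rho K L)

theorem xi_EL (L : Matrix n n K) (σ : Equiv.Perm n) (k l : n) :
    xi K (yσ K σ) (EL K L k l) = MvPolynomial.C (EL K L k l) +
      MvPolynomial.X k * MvPolynomial.C (genE K (σ k) l) := by
  have h1 : ∀ j, (yσ K σ j * Matrix.single k l (1 : K)) =
      if j = k then Matrix.single (σ k) l 1 else 0 := by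
    intro j
    unfold yσ
    split_ifs with h
    · rw [h, Matrix.single_mul_single_same, one_mul]
    · rw [Matrix.single_mul_single_of_ne]
      exact h
  have h2 : EL K L k l = ιS K _ (Matrix.single k l 1) + algebraMap K _ (L k l) := rfl
  have h3 : ∀ r : K, (algebraMap K (MvPolynomial n (Sy K (Matrix n n K)))) r =
        MvPolynomial.C (algebraMap K (Sy K (Matrix n n K)) r) := fun r => rfl
  rw [h2, map_add, xi_ι, AlgHom.commutes, h3, map_add, Finset.sum_eq_single k]
  · rw [h1, if_pos rfl, genE, Matrix.of_apply]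
    ring
  · intro j _ hj
    rw [h1, if_neg hj, map_zero, map_zero, mul_zero]
  · exact fun h => absurd (mem_univ k) h

theorem G_det (L L' : Matrix n n K) (σ : Equiv.Perm n) :
    G K (yσ K σ) (fun j => L (σ j) j) (EL K L').det =
      (Matrix.of fun k l => EL K L (σ k) k * EL K L' k l + genE K (σ k) l).det := by
  rw [G_apply, AlgHom.map_det, ← Matrix.det_transpose, Matrix.det_apply, Finset.mul_sum, kap_sum,
    ← Matrix.det_transpose, Matrix.det_apply]
  refine Finset.sum_congr rfl fun τ _ => ?_
  have h1 : pre K (yσ K σ) (fun j => L (σ j) j) * (Equiv.Perm.sign τ •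
      ∏ i, ((xi K (yσ K σ)).mapMatrix (EL K L')).transpose (τ i) i) =
      MvPolynomial.C ((Equiv.Perm.sign τ : ℤ) : Sy K (Matrix n n K)) *
      ((∏ j : n, (MvPolynomial.C 1 + MvPolynomial.X j *
        MvPolynomial.C (EL K L (σ j) j))) *
      ∏ j : n, (MvPolynomial.C (EL K L' j (τ j)) +
        MvPolynomial.X j * MvPolynomial.C (genE K (σ j) (τ j)))) := by
    have h2 : ∀ i, ((xi K (yσ K σ)).mapMatrix (EL K L')).transpose (τ i) i =
        MvPolynomial.C (EL K L' i (τ i)) +
        MvPolynomial.X i * MvPolynomial.C (genE K (σ i) (τ i)) := fun i => xi_EL K L' σ i (τ i)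
    simp only [h2, map_one, pre]
    rw [Units.smul_def, zsmul_eq_mul, map_intCast]
    have h4 : ∀ j, letter K (yσ K σ) (fun j => L (σ j) j) j = EL K L (σ j) j := fun j => rfl
    simp only [h4]
    ring
  rw [h1, kap_C_mul, kap_lin2, Units.smul_def, zsmul_eq_mul]
  congr 1
  refine Finset.prod_congr rfl fun j _ => ?_
  rw [Matrix.transpose_apply, Matrix.of_apply, one_mul, add_comm]

theorem DL_det (L L' : Matrix n n K) :
    DL K L (EL K L').det = permSum (EL K L) (EL K L') (genE K) := by
  rw [DL_apply, permSum]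
  refine Fintype.sum_equiv (Equiv.inv (Equiv.Perm n)) _ _ fun σ => ?_
  rw [G_det, Equiv.inv_apply]
  have h1 : (Matrix.of fun k l => EL K L (σ k) k * EL K L' k l + genE K (σ k) l) =
      (Matrix.of fun i l => EL K L i (σ⁻¹ i) * EL K L' (σ⁻¹ i) l + genE K i l).submatrix σ id := by
    ext k l
    rw [Matrix.submatrix_apply, Matrix.of_apply, Matrix.of_apply]
    have h2 : σ⁻¹ (σ k) = k := Equiv.symm_apply_apply σ k
    rw [h2]
    rfl
  rw [h1, Matrix.det_permute, zsmul_eq_mul, ← mul_assoc, ← Int.cast_mul]
  have h3 : ((Equiv.Perm.sign σ : ℤ) * (Equiv.Perm.sign σ : ℤ)) = 1 := by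
    rw [← Units.val_mul, Int.units_mul_self]
    rfl
  rw [h3, Int.cast_one, one_mul]

/-- **the normally ordered determinants commute** -/
theorem det_commute [CharZero K] (ξ : Matrix n n K) (l t l' t' : K) :
    Commute (nord K (EL K (Matrix.scalar n l + t • ξ)).det)
      (nord K (EL K (Matrix.scalar n l' + t' • ξ)).det) := by
  refine commute_of_act K ?_
  rw [act_nord, act_nord, act_nord_det, act_nord_det, DL_det, DL_det]
  have hE : ∀ (a b : K), EL K (Matrix.scalar n a + b • ξ) = genE K +
      Matrix.scalar n (algebraMap K _ a) + (algebraMap K (Sy K (Matrix n n K)) b) •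
        ξ.map (algebraMap K _) := by
    intro a b
    ext i j
    simp only [EL, genE, Matrix.of_apply, Matrix.add_apply, Matrix.scalar_apply,
      Matrix.diagonal_apply, Matrix.smul_apply, Matrix.map_apply, smul_eq_mul, map_add, map_mul]
    split_ifs
    · ring
    · rw [map_zero]
      ring
  by_cases ht : t = t'
  · subst ht
    rw [permSum_eq_facLin, permSum_eq_facLin]
    have h1 : EL K (Matrix.scalar n l' + t • ξ) = EL K (Matrix.scalar n l + t • ξ) +
        Matrix.scalar n (algebraMap K (Sy K (Matrix n n K)) (l' - l)) := by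
      rw [hE, hE, map_sub, map_sub]
      abel
    rw [h1, mul_add, add_mul, (Matrix.scalar_commute _ (fun r => Commute.all _ _) _).eq]
  · refine permSum_comm _ _ _ (algebraMap K _ t) (algebraMap K _ t')
      (algebraMap K _ t' * algebraMap K _ l - algebraMap K _ t * algebraMap K _ l') ?_ ?_
    · rw [← map_sub]
      exact (IsUnit.mk0 _ (sub_ne_zero.2 (Ne.symm ht))).map _
    · rw [hE, hE]
      ext i j
      simp only [Matrix.smul_apply, Matrix.sub_apply, Matrix.add_apply, Matrix.scalar_apply,
        Matrix.diagonal_apply, smul_eq_mul]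
      split_ifs <;> ring

end Pool.Agent.helper90.MF
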