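import Mathlib

/-!
# Extraction of coefficients
-/

set_option autoImplicit false

namespace Pool.Agent.helper90.MF

open Finset

variable {K : Type*} [Field K] [Infinite K] {M : Type*} [AddCommGroup M] [Module K M]

/-- a polynomial family which vanishes for all `t ≠ 0` is zero -/
theorem coeff_zero (N : ℕ) (v : ℕ → M) (h : ∀ t : K, t ≠ 0 → ∑ m ∈ range N, t ^ m • v m = 0) :
    ∀ m < N, v m = 0 := by
  intro m hm
  rw [← Module.forall_dual_apply_eq_zero_iff K]
  intro χ
  set p : Polynomial K := ∑ m ∈ range N, Polynomial.C (χ (v m)) * Polynomial.X ^ m with hp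
  have h1 : p = 0 := by
    refine Polynomial.eq_zero_of_infinite_isRoot p ?_
    refine Set.Infinite.mono (s := {t : K | t ≠ 0}) ?_ ?_
    · intro t ht
      have h2 := congrArg χ (h t ht)
      rw [map_sum, map_zero] at h2
      show p.eval t = 0
      rw [hp, Polynomial.eval_finset_sum, ← h2]
      refine Finset.sum_congr rfl fun m _ => ?_
      rw [map_smul, smul_eq_mul, Polynomial.eval_mul, Polynomial.eval_C, Polynomial.eval_pow,
        Polynomial.eval_X, mul_comm]
    · exact Set.Finite.infinite_compl (Set.finite_singleton (0 : K))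
  have h3 := congrArg (fun q : Polynomial K => q.coeff m) h1
  simp only [Polynomial.coeff_zero] at h3
  rw [hp, Polynomial.finset_sum_coeff] at h3
  simp only [Polynomial.coeff_C_mul_X_pow] at h3
  rw [Finset.sum_ite_eq, if_pos (mem_range.2 hm)] at h3
  exact h3

/-- a polynomial family with values in a submodule for all `t ≠ 0` has its coefficients there -/
theorem coeff_mem (S : Submodule K M) (N : ℕ) (v : ℕ → M)
    (h : ∀ t : K, t ≠ 0 → ∑ m ∈ range N, t ^ m • v m ∈ S) : ∀ m < N, v m ∈ S := by
  intro m hm
  rw [← Submodule.Quotient.mk_eq_zero S]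
  refine coeff_zero (K := K) N (fun m => (Submodule.Quotient.mk (v m) : M ⧸ S)) ?_ m hm
  intro t ht
  rw [← (Submodule.Quotient.mk_eq_zero S).2 (h t ht)]
  have h1 := map_sum S.mkQ (fun m => t ^ m • v m) (range N)
  rw [Submodule.mkQ_apply] at h1
  rw [h1]
  exact Finset.sum_congr rfl fun m _ => rfl

/-- the sum over the permutations of the coefficients of a multilinear expansion -/
theorem perm_coeff_mem {k : ℕ} (S : Submodule K M) (v : (Fin k → Fin k) → M)
    (h : ∀ a : Fin k → K, ∑ φ : Fin k → Fin k, (∏ s, a (φ s)) • v φ ∈ S) :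
    ∑ σ : Equiv.Perm (Fin k), v σ ∈ S := by
  classical
  rw [← Submodule.Quotient.mk_eq_zero S, ← Module.forall_dual_apply_eq_zero_iff K]
  intro χ
  set f : M →ₗ[K] K := χ ∘ₗ S.mkQ with hf
  have hf1 : ∀ m, f m = χ (Submodule.Quotient.mk m) := fun m => rfl
  rw [← hf1]
  set p : MvPolynomial (Fin k) K := ∑ φ : Fin k → Fin k,
    MvPolynomial.C (f (v φ)) * ∏ s, MvPolynomial.X (φ s) with hp
  have h1 : p = 0 := by
    refine MvPolynomial.funext fun a => ?_
    rw [hp, map_sum, map_zero]
    have h2 := h a
    rw [← Submodule.Quotient.mk_eq_zero S] at h2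
    have h3 : f (∑ φ : Fin k → Fin k, (∏ s, a (φ s)) • v φ) = 0 := by
      rw [hf1, h2, map_zero]
    rw [map_sum] at h3
    rw [← h3]
    refine Finset.sum_congr rfl fun φ _ => ?_
    rw [map_mul, map_prod, MvPolynomial.eval_C, map_smul, smul_eq_mul, mul_comm]
    congr 1
    exact Finset.prod_congr rfl fun s _ => MvPolynomial.eval_X _
  have h4 := congrArg (fun q : MvPolynomial (Fin k) K =>
    q.coeff (∑ j : Fin k, Finsupp.single j 1)) h1
  simp only [MvPolynomial.coeff_zero] at h4
  rw [hp, MvPolynomial.coeff_sum] at h4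
  have h5 : ∀ φ : Fin k → Fin k, MvPolynomial.coeff (∑ j : Fin k, Finsupp.single j 1)
      (MvPolynomial.C (f (v φ)) * ∏ s, MvPolynomial.X (φ s)) =
      if Function.Bijective φ then f (v φ) else 0 := by
    intro φ
    rw [MvPolynomial.coeff_C_mul]
    have h6 : (∏ s, MvPolynomial.X (φ s) : MvPolynomial (Fin k) K) =
        MvPolynomial.monomial (∑ s, Finsupp.single (φ s) 1) 1 := by
      rw [MvPolynomial.monomial_sum_one]
      rfl
    rw [h6, MvPolynomial.coeff_monomial]
    by_cases hb : Function.Bijective φ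
    · rw [if_pos hb, if_pos, mul_one]
      exact hb.sum_comp fun j => Finsupp.single j 1
    · rw [if_neg hb, if_neg, mul_zero]
      intro h7
      apply hb
      rw [← Finite.injective_iff_bijective, Finite.injective_iff_surjective]
      intro j
      by_contra hj
      push Not at hj
      have h8 := congrArg (fun m : Fin k →₀ ℕ => m j) h7
      simp only [Finsupp.finsetSum_apply] at h8
      rw [Finset.sum_eq_zero, Finset.sum_eq_single j] at h8
      · rw [Finsupp.single_eq_same] at h8
        exact zero_ne_one h8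
      · intro i _ hi
        exact Finsupp.single_eq_of_ne hi.symm
      · exact fun h => absurd (mem_univ j) h
      · intro s _
        exact Finsupp.single_eq_of_ne (hj s).symm
  simp only [h5] at h4
  rw [← Finset.sum_filter] at h4
  rw [map_sum, ← h4]
  refine Finset.sum_bij (fun σ _ => (σ : Fin k → Fin k)) ?_ ?_ ?_ ?_
  · intro σ _
    rw [mem_filter]
    exact ⟨mem_univ _, σ.bijective⟩
  · intro σ _ τ _ hστ
    exact DFunLike.coe_injective hστ
  · intro φ hφ
    rw [mem_filter] at hφ
    exact ⟨Equiv.ofBijective φ hφ.2, mem_univ _, rfl⟩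
  · intro σ _
    rfl

end Pool.Agent.helper90.MF
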