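import Mathlib
import Pool.Agent.helper90.MF.Fmt

/-!
# Mixed sums of principal minors
-/

set_option autoImplicit false

namespace Pool.Agent.helper90.MF

open Finset Polynomial

variable {n : Type*} [Fintype n] {R : Type*} [CommRing R]

/-- the mixed version of `D_k` over a commutative ring -/
noncomputable def W {k : ℕ} (M : Fin k → Matrix n n R) : R :=
  ∑ i : Fin k → n, ∑ τ : Equiv.Perm (Fin k),
    ((Equiv.Perm.sign τ : ℤ) : R) * ∏ j, M j (i j) (i (τ j))

theorem Dk_eq_W (k : ℕ) (M : Matrix n n R) : Dk k M = W fun _ : Fin k => M := by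
  unfold Dk W
  refine Finset.sum_congr rfl fun i _ => Finset.sum_congr rfl fun τ _ => ?_
  rw [List.prod_ofFn]

theorem sum_minors_inj [DecidableEq n] (k : ℕ) (M : Matrix n n R) :
    ∑ i : Fin k → n, (M.submatrix i i).det =
      (k.factorial : R) * ∑ s ∈ Finset.univ.powersetCard k,
        (M.submatrix (Subtype.val : s → n) (Subtype.val : s → n)).det := by
  classical
  have h0 : ∀ i : Fin k → n, ¬ Function.Injective i → (M.submatrix i i).det = 0 := by
    intro i hi
    unfold Function.Injective at hi
    push Not at hi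
    obtain ⟨a, b, hab, hne⟩ := hi
    refine Matrix.det_zero_of_row_eq hne ?_
    ext c
    rw [Matrix.submatrix_apply, Matrix.submatrix_apply, hab]
  have h1 : ∑ i : Fin k → n, (M.submatrix i i).det =
      ∑ i ∈ univ.filter fun i : Fin k → n => Function.Injective i, (M.submatrix i i).det := by
    refine (Finset.sum_subset (Finset.filter_subset _ _) fun i _ hi => h0 i ?_).symm
    intro h
    exact hi (Finset.mem_filter.2 ⟨mem_univ _, h⟩)
  rw [h1, ← Finset.sum_fiberwise_of_maps_to (t := Finset.univ.powersetCard k)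
    (g := fun i : Fin k → n => univ.image i), Finset.mul_sum]
  · refine Finset.sum_congr rfl fun s hs => ?_
    have hs' := (Finset.mem_powersetCard.1 hs).2
    have h2 : ∑ e : Fin k ≃ s, (M.submatrix (fun j => (e j : n)) fun j => (e j : n)).det =
        (k.factorial : R) * (M.submatrix (Subtype.val : s → n) (Subtype.val : s → n)).det := by
      have h3 : ∀ e : Fin k ≃ s, (M.submatrix (fun j => (e j : n)) fun j => (e j : n)).det =
          (M.submatrix (Subtype.val : s → n) (Subtype.val : s → n)).det := by
        intro e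
        rw [← Matrix.det_submatrix_equiv_self e, Matrix.submatrix_submatrix]
        rfl
      rw [Finset.sum_congr rfl fun e _ => h3 e, Finset.sum_const, Finset.card_univ,
        nsmul_eq_mul]
      congr 2
      have h4 : Fintype.card (Fin k) = Fintype.card s := by
        rw [Fintype.card_fin, Fintype.card_coe, hs']
      rw [Fintype.card_equiv (Fintype.equivOfCardEq h4), Fintype.card_fin]
    rw [← h2]
    symm
    refine Finset.sum_bij (fun e _ => fun j => (e j : n)) ?_ ?_ ?_ ?_
    · intro e _
      rw [Finset.mem_filter, Finset.mem_filter]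
      refine ⟨⟨mem_univ _, fun a b hab => e.injective (Subtype.ext hab)⟩, ?_⟩
      ext x
      rw [Finset.mem_image]
      constructor
      · rintro ⟨j, _, rfl⟩
        exact (e j).2
      · intro hx
        exact ⟨e.symm ⟨x, hx⟩, mem_univ _, by rw [Equiv.apply_symm_apply]⟩
    · intro e _ e' _ h
      refine Equiv.ext fun j => Subtype.ext (congrFun h j)
    · intro i hi
      rw [Finset.mem_filter, Finset.mem_filter] at hi
      obtain ⟨⟨_, hinj⟩, himg⟩ := hi
      have hmem : ∀ j, i j ∈ s := fun j => by
        rw [← himg]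
        exact Finset.mem_image_of_mem _ (mem_univ j)
      refine ⟨Equiv.ofBijective (fun j => (⟨i j, hmem j⟩ : s)) ⟨?_, ?_⟩, mem_univ _, rfl⟩
      · intro a b hab
        exact hinj (congrArg Subtype.val hab)
      · rintro ⟨x, hx⟩
        rw [← himg, Finset.mem_image] at hx
        obtain ⟨j, _, rfl⟩ := hx
        exact ⟨j, rfl⟩
    · intro e _
      rfl
  · intro i hi
    rw [Finset.mem_filter] at hi
    rw [Finset.mem_powersetCard]
    refine ⟨Finset.subset_univ _, ?_⟩
    rw [Finset.card_image_of_injective _ hi.2, Finset.card_univ, Fintype.card_fin]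

/-- `D_k` is `k!` times the sum of the principal minors -/
theorem W_const [DecidableEq n] (k : ℕ) (M : Matrix n n R) :
    W (fun _ : Fin k => M) = (k.factorial : R) * (gd M).coeff k := by
  rw [gd, Matrix.coeff_det_one_add_X_smul_eq_sum_minors, ← sum_minors_inj, W]
  refine Finset.sum_congr rfl fun i _ => ?_
  rw [← Matrix.det_transpose, Matrix.det_apply']
  rfl

theorem W_perm {k : ℕ} (M : Fin k → Matrix n n R) (π : Equiv.Perm (Fin k)) :
    W (fun j => M (π j)) = W M := by
  unfold W
  refine Fintype.sum_equiv ((Equiv.arrowCongr π (Equiv.refl n))) _ _ fun i => ?_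
  refine Fintype.sum_equiv ((Equiv.mulLeft π).trans (Equiv.mulRight π⁻¹)) _ _ fun τ => ?_
  have h1 : Equiv.Perm.sign ((Equiv.mulLeft π).trans (Equiv.mulRight π⁻¹) τ) =
      Equiv.Perm.sign τ := by
    simp only [Equiv.trans_apply, Equiv.coe_mulLeft, Equiv.coe_mulRight, map_mul,
      Equiv.Perm.sign_inv]
    rw [mul_comm (Equiv.Perm.sign π), mul_assoc, Int.units_mul_self, mul_one]
  rw [h1]
  congr 1
  refine Fintype.prod_equiv π _ _ fun j => ?_
  have h2 : π⁻¹ (π j) = j := Equiv.symm_apply_apply π j
  have h3 : ((Equiv.arrowCongr π (Equiv.refl n)) i) (π j) = i j := by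
    simp [Equiv.arrowCongr_apply]
  have h4 : ((Equiv.mulLeft π).trans (Equiv.mulRight π⁻¹) τ) (π j) = π (τ j) := by
    simp only [Equiv.trans_apply, Equiv.coe_mulLeft, Equiv.coe_mulRight,
      Equiv.Perm.mul_apply, h2]
  have h5 : ((Equiv.arrowCongr π (Equiv.refl n)) i) (π (τ j)) = i (τ j) := by
    simp [Equiv.arrowCongr_apply]
  rw [h3, h4, h5]

end Pool.Agent.helper90.MF
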