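import Mathlib
import Pool.Agent.helper90.MF.DetOp
import Pool.Agent.helper90.MF.Words
import Pool.Agent.helper90.MF.Extract

/-!
# The span of the shifted determinants
-/

set_option autoImplicit false

namespace Pool.Agent.helper90.MF

open Pool.Agent.helper5.AS Finset Polynomial

attribute [local instance 100] LieRing.ofAssociativeRing

variable (K : Type*) [Field K] {n : Type*} [Fintype n] [DecidableEq n]

/-- the span of the determinants `det (E + l + t ξ)` -/
noncomputable def cspan (ξ : Matrix n n K) : Submodule K (Sy K (Matrix n n K)) :=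
  Submodule.span K {F | ∃ l t : K, F = (EL K (Matrix.scalar n l + t • ξ)).det}

/-- the normally ordered elements of `cspan` commute -/
theorem cspan_commute [CharZero K] (ξ : Matrix n n K) {F G : Sy K (Matrix n n K)}
    (hF : F ∈ cspan K ξ) (hG : G ∈ cspan K ξ) : Commute (nord K F) (nord K G) := by
  refine Submodule.span_induction ?_ ?_ ?_ ?_ hF
  · rintro _ ⟨l, t, rfl⟩
    refine Submodule.span_induction ?_ ?_ ?_ ?_ hG
    · rintro _ ⟨l', t', rfl⟩
      exact det_commute K ξ l t l' t'
    · rw [map_zero]
      exact Commute.zero_right _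
    · intro a b _ _ ha hb
      rw [map_add]
      exact ha.add_right hb
    · intro c a _ ha
      rw [map_smul]
      exact ha.smul_right c
  · rw [map_zero]
    exact Commute.zero_left _
  · intro a b _ _ ha hb
    rw [map_add]
    exact ha.add_left hb
  · intro c a _ ha
    rw [map_smul]
    exact ha.smul_left c

/-- the matrix `c 0 E + c 1 ξ + c 2` -/
noncomputable def mat (ξ : Matrix n n K) (c : Fin 3 → K) : Matrix n n (Sy K (Matrix n n K)) :=
  Matrix.of fun i j => c 0 • genE K i j +
    algebraMap K _ (c 1 * ξ i j + c 2 * (1 : Matrix n n K) i j)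

theorem EL_eq_mat (ξ : Matrix n n K) (l t : K) :
    EL K (Matrix.scalar n l + t • ξ) = mat K ξ ![1, t, l] := by
  ext i j
  have h : (Matrix.scalar n l : Matrix n n K) i j = l * (1 : Matrix n n K) i j := by
    rw [Matrix.scalar_apply, Matrix.diagonal_apply, Matrix.one_apply]
    split_ifs
    · rw [mul_one]
    · rw [mul_zero]
  simp only [EL, mat, genE, Matrix.of_apply, Matrix.add_apply, Matrix.smul_apply, smul_eq_mul,
    h, Matrix.cons_val_zero, Matrix.cons_val_one, Matrix.cons_val_two, Matrix.head_cons,
    Matrix.tail_cons, one_smul]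
  rw [add_comm (t * ξ i j)]

theorem mat_smul (ξ : Matrix n n K) (a : K) (c : Fin 3 → K) :
    mat K ξ (a • c) = a • mat K ξ c := by
  ext i j
  simp only [mat, Matrix.of_apply, Matrix.smul_apply, Pi.smul_apply, smul_eq_mul, smul_add,
    smul_smul]
  congr 1
  rw [← algebraMap_smul (Sy K (Matrix n n K)) a, smul_eq_mul, ← map_mul]
  congr 1
  ring

/-- `det (1 + u M)` -/
theorem eval_gd {R : Type*} [CommRing R] (M : Matrix n n R) (u : R) :
    (gd M).eval u = (1 + u • M).det := by
  rw [gd, ← Polynomial.coe_evalRingHom, RingHom.map_det]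
  congr 1
  ext i j
  rw [RingHom.mapMatrix_apply, Matrix.map_apply, Matrix.add_apply, Matrix.add_apply,
    Matrix.smul_apply, Matrix.smul_apply, smul_eq_mul, smul_eq_mul, Matrix.map_apply,
    Polynomial.coe_evalRingHom, Polynomial.eval_add, Polynomial.eval_mul, Polynomial.eval_X,
    Polynomial.eval_C, Matrix.one_apply, Matrix.one_apply]
  congr 1
  split_ifs
  · exact Polynomial.eval_one
  · exact Polynomial.eval_zero

theorem gd_degree {R : Type*} [CommRing R] (M : Matrix n n R) (k : ℕ) (hk : Fintype.card n < k) :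
    (gd M).coeff k = 0 := by
  rw [gd, Matrix.coeff_det_one_add_X_smul_eq_sum_minors, Finset.powersetCard_eq_empty.2,
    Finset.sum_empty]
  rwa [Finset.card_univ]

theorem eval_gd_sum {R : Type*} [CommRing R] [Algebra K R] (M : Matrix n n R) (u : K) :
    (gd M).eval (algebraMap K R u) =
      ∑ m ∈ range (Fintype.card n + 1), u ^ m • (gd M).coeff m := by
  rw [Polynomial.eval_eq_sum_range' (n := Fintype.card n + 1)]
  · refine Finset.sum_congr rfl fun m _ => ?_
    rw [Algebra.smul_def, map_pow, mul_comm]
  · rw [Nat.lt_succ_iff, Polynomial.natDegree_le_iff_coeff_eq_zero]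
    intro m hm
    exact gd_degree M m hm

theorem gd_mat_mem [Infinite K] (ξ : Matrix n n K) (c : Fin 3 → K) (hc : c 0 ≠ 0) (k : ℕ) :
    (gd (mat K ξ c)).coeff k ∈ cspan K ξ := by
  by_cases hk : k < Fintype.card n + 1
  · refine coeff_mem (K := K) (cspan K ξ) (Fintype.card n + 1) (fun m => (gd (mat K ξ c)).coeff m)
      ?_ k hk
    intro u hu
    rw [← eval_gd_sum, eval_gd]
    have h1 : 1 + (algebraMap K (Sy K (Matrix n n K)) u) • mat K ξ c =
        (u * c 0) • EL K (Matrix.scalar n ((1 + u * c 2) / (u * c 0)) + (c 1 / c 0) • ξ) := by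
      rw [EL_eq_mat, ← mat_smul]
      ext i j
      simp only [mat, Matrix.of_apply, Matrix.smul_apply, Pi.smul_apply, smul_eq_mul,
        Matrix.add_apply, Matrix.cons_val_zero, Matrix.cons_val_one, Matrix.cons_val_two,
        Matrix.head_cons, Matrix.tail_cons, mul_one]
      have h2 : u * c 0 * (c 1 / c 0) * ξ i j + u * c 0 * ((1 + u * c 2) / (u * c 0)) *
          (1 : Matrix n n K) i j = u * (c 1 * ξ i j + c 2 * (1 : Matrix n n K) i j) +
          (1 : Matrix n n K) i j := by
        field_simp
        ring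
      have h3 : (1 : Matrix n n (Sy K (Matrix n n K))) i j =
          algebraMap K _ ((1 : Matrix n n K) i j) := by
        rw [Matrix.one_apply, Matrix.one_apply]
        split_ifs
        · rw [map_one]
        · rw [map_zero]
      have h4 : (u * c 0) • genE K i j =
          algebraMap K (Sy K (Matrix n n K)) u * c 0 • genE K i j := by
        rw [mul_smul, Algebra.smul_def u]
      rw [h2, h3, map_add (algebraMap K _) (u * _) _, map_mul (algebraMap K _) u _, mul_add, h4]
      ring
    rw [h1, Matrix.det_smul_of_tower]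
    refine Submodule.smul_mem _ _ (Submodule.subset_span ⟨_, _, rfl⟩)
  · rw [gd_degree]
    · exact zero_mem _
    · omega

theorem one_mem_cspan [Infinite K] (ξ : Matrix n n K) : 1 ∈ cspan K ξ := by
  have h := gd_mat_mem K ξ ![1, 0, 0] one_ne_zero 0
  rwa [gd, Matrix.coeff_det_one_add_X_smul_eq_sum_minors, Finset.powersetCard_zero,
    Finset.sum_singleton, Matrix.det_isEmpty] at h

theorem W_diag_mem [Infinite K] (ξ : Matrix n n K) (k : ℕ) (c : Fin 3 → K) :
    W (fun _ : Fin k => mat K ξ c) ∈ cspan K ξ := by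
  rw [W_const]
  by_cases hc : c 0 = 0
  · have h1 : mat K ξ c = (Matrix.of fun i j =>
        c 1 * ξ i j + c 2 * (1 : Matrix n n K) i j).map (algebraMap K _) := by
      ext i j
      rw [mat, Matrix.of_apply, hc, zero_smul, zero_add]
      rfl
    have h2 : (gd (mat K ξ c)).coeff k = algebraMap K _ ((gd (Matrix.of fun i j =>
        c 1 * ξ i j + c 2 * (1 : Matrix n n K) i j)).coeff k) := by
      rw [gd, gd, Matrix.coeff_det_one_add_X_smul_eq_sum_minors,
        Matrix.coeff_det_one_add_X_smul_eq_sum_minors, map_sum]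
      refine Finset.sum_congr rfl fun s _ => ?_
      rw [RingHom.map_det, h1]
      rfl
    rw [h2, Algebra.algebraMap_eq_smul_one, mul_smul_comm, mul_one, ← map_natCast
      (algebraMap K (Sy K (Matrix n n K))), Algebra.algebraMap_eq_smul_one]
    exact Submodule.smul_mem _ _ (Submodule.smul_mem _ _ (one_mem_cspan K ξ))
  · rw [← nsmul_eq_mul]
    exact (cspan K ξ).nsmul_mem (gd_mat_mem K ξ c hc k) _

theorem mat_sum (ξ : Matrix n n K) {k : ℕ} (a : Fin k → K) (c : Fin k → Fin 3 → K) (i j : n) :
    mat K ξ (∑ s, a s • c s) i j = ∑ s, a s • mat K ξ (c s) i j := by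
  simp only [mat, Matrix.of_apply, Finset.sum_apply, Pi.smul_apply, smul_eq_mul, smul_add,
    Finset.sum_add_distrib, Finset.sum_smul, Finset.sum_mul, smul_smul, map_sum, map_add]
  congr 1
  congr 1
  · refine Finset.sum_congr rfl fun s _ => ?_
    rw [Algebra.smul_def (a s), ← map_mul, mul_assoc]
  · refine Finset.sum_congr rfl fun s _ => ?_
    rw [Algebra.smul_def (a s), ← map_mul, mul_assoc]

/-- all the mixed sums are in the span (polarisation) -/
theorem W_mem [CharZero K] (ξ : Matrix n n K) {k : ℕ} (c : Fin k → Fin 3 → K) :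
    W (fun j => mat K ξ (c j)) ∈ cspan K ξ := by
  have h1 := perm_coeff_mem (cspan K ξ) (fun φ : Fin k → Fin k => W fun j => mat K ξ (c (φ j)))
    (by
      intro a
      have h2 := W_diag_mem K ξ k (∑ s, a s • c s)
      have h3 : W (fun _ : Fin k => mat K ξ (∑ s, a s • c s)) =
          ∑ φ : Fin k → Fin k, (∏ s, a (φ s)) • W fun j => mat K ξ (c (φ j)) := by
        simp only [W, Finset.smul_sum]
        conv_rhs => rw [Finset.sum_comm]
        refine Finset.sum_congr rfl fun i _ => ?_
        conv_rhs => rw [Finset.sum_comm]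
        refine Finset.sum_congr rfl fun τ _ => ?_
        simp only [mat_sum]
        rw [Finset.prod_univ_sum, Finset.mul_sum, Fintype.piFinset_univ]
        refine Finset.sum_congr rfl fun φ _ => ?_
        rw [← mul_smul_comm, Finset.prod_smul]
      rwa [h3] at h2)
  have h4 : ∀ σ : Equiv.Perm (Fin k), W (fun j => mat K ξ (c (σ j))) =
      W fun j => mat K ξ (c j) := fun σ => W_perm (fun j => mat K ξ (c j)) σ
  rw [Finset.sum_congr rfl fun σ _ => h4 σ, Finset.sum_const, Finset.card_univ] at h1
  have h5 : ((Fintype.card (Equiv.Perm (Fin k)) : K)) ≠ 0 := by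
    rw [Fintype.card_perm]
    exact Nat.cast_ne_zero.2 (Nat.factorial_ne_zero _)
  rw [← Nat.cast_smul_eq_nsmul K] at h1
  have h6 := Submodule.smul_mem _ ((Fintype.card (Equiv.Perm (Fin k)) : K))⁻¹ h1
  rwa [smul_smul, inv_mul_cancel₀ h5, one_smul] at h6

end Pool.Agent.helper90.MF
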