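import Mathlib
import Pool.Agent.helper90.MF.Cspan

/-!
# The values of the symmetrised elements `D_k` are in the span of the shifted determinants
-/

set_option autoImplicit false

namespace Pool.Agent.helper90.MF

open Pool.Agent.helper5.AS Finset Polynomial

attribute [local instance 100] LieRing.ofAssociativeRing

variable (K : Type*) [Field K] {n : Type*} [Fintype n] [DecidableEq n]

/-- the operator of the entry `(a, b)` of `E + t ξ` -/
noncomputable def opM (ξ : Matrix n n K) (t : K) (a b : n) :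
    Module.End K (Sy K (Matrix n n K)) :=
  lam K (Matrix.single a b 1) + (t * ξ a b) • 1

/-- the product of the first `p` operators -/
noncomputable def opP (ξ : Matrix n n K) (t : K) {k : ℕ} (p : ℕ) (i : Fin k → n)
    (τ : Equiv.Perm (Fin k)) : Module.End K (Sy K (Matrix n n K)) :=
  ((List.ofFn fun j => opM K ξ t (i j) (i (τ j))).take p).prod

theorem opP_zero (ξ : Matrix n n K) (t : K) {k : ℕ} (i : Fin k → n) (τ : Equiv.Perm (Fin k)) :
    opP K ξ t 0 i τ = 1 := by
  rw [opP, List.take_zero, List.prod_nil]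

theorem opP_full (ξ : Matrix n n K) (t : K) {k : ℕ} (i : Fin k → n) (τ : Equiv.Perm (Fin k)) :
    opP K ξ t k i τ = (List.ofFn fun j => opM K ξ t (i j) (i (τ j))).prod := by
  rw [opP, List.take_of_length_le]
  rw [List.length_ofFn]

theorem opP_succ (ξ : Matrix n n K) (t : K) {k : ℕ} (p : ℕ) (hp : p < k) (i : Fin k → n)
    (τ : Equiv.Perm (Fin k)) :
    opP K ξ t (p + 1) i τ = opP K ξ t p i τ * opM K ξ t (i ⟨p, hp⟩) (i (τ ⟨p, hp⟩)) := by
  rw [opP, opP, List.take_succ_eq_append_getElem (by rw [List.length_ofFn]; exact hp),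
    List.prod_append, List.prod_singleton, List.getElem_ofFn]

theorem opP_congr (ξ : Matrix n n K) (t : K) {k : ℕ} (p : ℕ) (i : Fin k → n)
    (τ τ' : Equiv.Perm (Fin k)) (h : ∀ j : Fin k, j.1 < p → τ j = τ' j) :
    opP K ξ t p i τ = opP K ξ t p i τ' := by
  unfold opP
  congr 1
  refine List.ext_getElem ?_ ?_
  · rw [List.length_take, List.length_take, List.length_ofFn, List.length_ofFn]
  · intro m h1 h2
    rw [List.getElem_take, List.getElem_take, List.getElem_ofFn, List.getElem_ofFn]
    rw [List.length_take] at h1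
    rw [h ⟨m, by rw [List.length_ofFn] at h1; omega⟩ (by simp at h1 ⊢; omega)]

/-- the sum with `p` operators and `k - p` commutative letters -/
noncomputable def TT (ξ : Matrix n n K) (t : K) {k : ℕ} (p : ℕ) (c : Fin k → Fin 3 → K) :
    Sy K (Matrix n n K) :=
  ∑ i : Fin k → n, ∑ τ : Equiv.Perm (Fin k), (Equiv.Perm.sign τ : ℤ) •
    opP K ξ t p i τ (∏ j ∈ univ.filter fun j : Fin k => p ≤ j.1,
      mat K ξ (c j) (i j) (i (τ j)))

theorem TT_zero (ξ : Matrix n n K) (t : K) {k : ℕ} (c : Fin k → Fin 3 → K) :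
    TT K ξ t 0 c = W fun j => mat K ξ (c j) := by
  unfold TT W
  refine Finset.sum_congr rfl fun i _ => Finset.sum_congr rfl fun τ _ => ?_
  rw [opP_zero, Module.End.one_apply, zsmul_eq_mul]
  congr 2
  ext j
  simp

theorem dL_mat (ξ : Matrix n n K) (c : Fin 3 → K) (a b x y : n) :
    dL K (Matrix.single a b 1) (mat K ξ c x y) =
      algebraMap K _ (c 0 * (1 : Matrix n n K) b x) * genE K a y := by
  have h : dL K (Matrix.single a b (1 : K)) (genE K x y) =
      algebraMap K _ ((1 : Matrix n n K) b x) * genE K a y := by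
    rw [genE, Matrix.of_apply, Matrix.of_apply, dL_ι, Matrix.one_apply]
    split_ifs with hbx
    · rw [hbx, Matrix.single_mul_single_same, one_mul, map_one, one_mul]
    · rw [Matrix.single_mul_single_of_ne, map_zero, map_zero, zero_mul]
      exact hbx
  rw [mat, Matrix.of_apply, map_add, Derivation.map_algebraMap, add_zero, Derivation.map_smul, h,
    map_mul, mul_assoc, Algebra.smul_def]

theorem opM_prod (ξ : Matrix n n K) (t : K) (a b : n) {J : Type*} [DecidableEq J] (s : Finset J)
    (c : J → Fin 3 → K) (x y : J → n) :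
    opM K ξ t a b (∏ j ∈ s, mat K ξ (c j) (x j) (y j)) =
      mat K ξ ![1, t, 0] a b * ∏ j ∈ s, mat K ξ (c j) (x j) (y j) +
      ∑ r ∈ s, algebraMap K _ (c r 0 * (1 : Matrix n n K) b (x r)) * genE K a (y r) *
        ∏ j ∈ s.erase r, mat K ξ (c j) (x j) (y j) := by
  rw [opM, LinearMap.add_apply, lam_apply, LinearMap.smul_apply, Module.End.one_apply,
    deriv_prod, add_right_comm]
  congr 1
  · rw [mat, Matrix.of_apply, Algebra.smul_def]
    simp only [Matrix.cons_val_zero, Matrix.cons_val_one, Matrix.cons_val_two,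
      Matrix.head_cons, Matrix.tail_cons, one_smul, zero_mul, add_zero]
    rw [add_mul]
    rfl
  · refine Finset.sum_congr rfl fun r _ => ?_
    rw [dL_mat]
    ring

theorem TT_succ (ξ : Matrix n n K) (t : K) {k : ℕ} (p : ℕ) (hp : p < k)
    (c : Fin k → Fin 3 → K) :
    TT K ξ t (p + 1) c = TT K ξ t p (Function.update c ⟨p, hp⟩ ![1, t, 0]) -
      ∑ r ∈ univ.filter fun j : Fin k => p + 1 ≤ j.1,
        TT K ξ t p (Function.update (Function.update c ⟨p, hp⟩ ![1, 0, 0]) r
          ![0, 0, c r 0]) := by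
  set P : Fin k := ⟨p, hp⟩ with hP
  have hfil : (univ.filter fun j : Fin k => p ≤ j.1) =
      insert P (univ.filter fun j : Fin k => p + 1 ≤ j.1) := by
    ext j
    simp only [mem_filter, mem_univ, true_and, mem_insert, hP, Fin.ext_iff]
    omega
  have hPn : P ∉ univ.filter fun j : Fin k => p + 1 ≤ j.1 := by
    rw [mem_filter]
    rintro ⟨_, h⟩
    rw [hP] at h
    simp at h
  -- expansion of the left hand side
  have h1 : TT K ξ t (p + 1) c = TT K ξ t p (Function.update c P ![1, t, 0]) +
      ∑ r ∈ univ.filter fun j : Fin k => p + 1 ≤ j.1,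
      ∑ i : Fin k → n, ∑ τ : Equiv.Perm (Fin k), (Equiv.Perm.sign τ : ℤ) •
        opP K ξ t p i τ (algebraMap K _ (c r 0 * (1 : Matrix n n K) (i (τ P)) (i r)) *
          genE K (i P) (i (τ r)) *
          ∏ j ∈ (univ.filter fun j : Fin k => p + 1 ≤ j.1).erase r,
            mat K ξ (c j) (i j) (i (τ j))) := by
    unfold TT
    rw [Finset.sum_comm (s := univ.filter fun j : Fin k => p + 1 ≤ j.1),
      ← Finset.sum_add_distrib]
    refine Finset.sum_congr rfl fun i _ => ?_
    rw [Finset.sum_comm (s := univ.filter fun j : Fin k => p + 1 ≤ j.1),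
      ← Finset.sum_add_distrib]
    refine Finset.sum_congr rfl fun τ _ => ?_
    rw [opP_succ K ξ t p hp, Module.End.mul_apply, opM_prod, map_add, smul_add, map_sum,
      Finset.smul_sum, hfil, Finset.prod_insert hPn, Function.update_self]
    congr 3
    congr 1
    refine Finset.prod_congr rfl fun j hj => ?_
    rw [Function.update_of_ne]
    rintro rfl
    exact hPn hj
  rw [h1, sub_eq_add_neg, ← Finset.sum_neg_distrib]
  congr 1
  refine Finset.sum_congr rfl fun r hr => ?_
  have hrP : r ≠ P := by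
    rintro rfl
    exact hPn hr
  have hr' : p + 1 ≤ r.1 := (mem_filter.1 hr).2
  unfold TT
  rw [← Finset.sum_neg_distrib]
  refine Finset.sum_congr rfl fun i _ => ?_
  rw [← Finset.sum_neg_distrib]
  refine Fintype.sum_equiv (Equiv.mulRight (Equiv.swap P r)) _ _ fun τ => ?_
  have hs : Equiv.Perm.sign (τ * Equiv.swap P r) = - Equiv.Perm.sign τ := by
    rw [Equiv.Perm.sign_mul, Equiv.Perm.sign_swap hrP.symm, mul_neg_one]
  have he : (Equiv.mulRight (Equiv.swap P r)) τ = τ * Equiv.swap P r := rfl
  rw [he, hs]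
  have h2 : opP K ξ t p i (τ * Equiv.swap P r) = opP K ξ t p i τ := by
    refine opP_congr K ξ t p i _ _ fun j hj => ?_
    rw [Equiv.Perm.mul_apply, Equiv.swap_apply_of_ne_of_ne]
    · rintro rfl
      rw [hP] at hj
      simp at hj
    · rintro rfl
      omega
  rw [h2, hfil, Finset.prod_insert hPn, ← Finset.mul_prod_erase _ _ hr, Function.update_self,
    Function.update_of_ne hrP.symm, Function.update_self]
  have h3 : (τ * Equiv.swap P r) P = τ r := by
    rw [Equiv.Perm.mul_apply, Equiv.swap_apply_left]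
  have h4 : (τ * Equiv.swap P r) r = τ P := by
    rw [Equiv.Perm.mul_apply, Equiv.swap_apply_right]
  have h5 : ∏ j ∈ (univ.filter fun j : Fin k => p + 1 ≤ j.1).erase r,
      mat K ξ (Function.update (Function.update c P ![1, 0, 0]) r ![0, 0, c r 0] j) (i j)
        (i ((τ * Equiv.swap P r) j)) =
      ∏ j ∈ (univ.filter fun j : Fin k => p + 1 ≤ j.1).erase r,
        mat K ξ (c j) (i j) (i (τ j)) := by
    refine Finset.prod_congr rfl fun j hj => ?_
    have hjr : j ≠ r := Finset.ne_of_mem_erase hj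
    have hjP : j ≠ P := by
      rintro rfl
      exact hPn (Finset.mem_of_mem_erase hj)
    rw [Function.update_of_ne hjr, Function.update_of_ne hjP, Equiv.Perm.mul_apply,
      Equiv.swap_apply_of_ne_of_ne hjP hjr]
  rw [h3, h4, h5]
  have h6 : mat K ξ ![1, 0, 0] (i P) (i (τ r)) = genE K (i P) (i (τ r)) := by
    rw [mat, Matrix.of_apply]
    simp
  have h7 : mat K ξ ![0, 0, c r 0] (i r) (i (τ P)) =
      algebraMap K _ (c r 0 * (1 : Matrix n n K) (i (τ P)) (i r)) := by
    rw [mat, Matrix.of_apply, Matrix.one_apply, Matrix.one_apply]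
    simp only [Matrix.cons_val_zero, Matrix.cons_val_one, Matrix.cons_val_two,
      Matrix.head_cons, Matrix.tail_cons, zero_smul, zero_mul, zero_add, eq_comm]
  rw [h6, h7]
  simp only [Units.val_neg, neg_smul, neg_neg]
  congr 2
  ring

theorem TT_mem [CharZero K] (ξ : Matrix n n K) (t : K) {k : ℕ} (p : ℕ) (hp : p ≤ k)
    (c : Fin k → Fin 3 → K) : TT K ξ t p c ∈ cspan K ξ := by
  induction p generalizing c with
  | zero =>
    rw [TT_zero]
    exact W_mem K ξ c
  | succ p ih =>
    rw [TT_succ K ξ t p (by omega)]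
    exact sub_mem (ih (by omega) _) (sum_mem fun r _ => ih (by omega) _)

end Pool.Agent.helper90.MF
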