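import Mathlib
import Pool.Agent.helper90.MF.Step

/-!
# The elements `D_k (x + t ξ)` commute in `U(gl_n)`
-/

set_option autoImplicit false
set_option linter.unusedSectionVars false

namespace Pool.Agent.helper90.MF

open Pool.Agent.helper5.AS Finset Polynomial

attribute [local instance 100] LieRing.ofAssociativeRing

theorem Dk_map {n : Type*} [Fintype n] {R S : Type*} [Ring R] [Ring S] (f : R →+* S) (k : ℕ)
    (A : Matrix n n R) : f (Dk k A) = Dk k (A.map f) := by
  unfold Dk
  rw [map_sum]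
  refine Finset.sum_congr rfl fun i _ => ?_
  rw [map_sum]
  refine Finset.sum_congr rfl fun τ _ => ?_
  rw [map_mul, map_intCast, map_list_prod, List.map_ofFn]
  rfl

theorem Dk_transpose {n : Type*} [Fintype n] {R : Type*} [Ring R] (k : ℕ) (A : Matrix n n R) :
    Dk k A.transpose = Dk k A := by
  unfold Dk
  rw [Finset.sum_comm]
  conv_rhs => rw [Finset.sum_comm]
  refine Fintype.sum_equiv (Equiv.inv (Equiv.Perm (Fin k))) _ _ fun τ => ?_
  refine Fintype.sum_equiv (Equiv.arrowCongr τ⁻¹ (Equiv.refl n)) _ _ fun i => ?_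
  rw [Equiv.inv_apply, Equiv.Perm.sign_inv]
  congr 3
  funext j
  rw [Matrix.transpose_apply]
  have h1 : ∀ x, ((Equiv.arrowCongr τ⁻¹ (Equiv.refl n)) i) x = i (τ x) := fun x => rfl
  rw [h1, h1]
  have h2 : τ (τ⁻¹ j) = j := Equiv.apply_symm_apply τ j
  rw [h2]

section Extract

variable {K : Type*} [Field K] [Infinite K] {R : Type*} [Ring R] [Algebra K R]

/-- if all values commute then all coefficients commute -/
theorem commute_coeff (N : ℕ) (v w : ℕ → R)
    (h : ∀ s t : K, Commute (∑ m ∈ range N, s ^ m • v m) (∑ m ∈ range N, t ^ m • w m))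
    {m m' : ℕ} (hm : m < N) (hm' : m' < N) : Commute (v m) (w m') := by
  have e1 : ∀ (s : K) (v : ℕ → R) (y : R), ∑ m ∈ range N, s ^ m • (v m * y) =
      (∑ m ∈ range N, s ^ m • v m) * y := fun s v y => by
    rw [Finset.sum_mul]
    exact Finset.sum_congr rfl fun m _ => (smul_mul_assoc _ _ _).symm
  have e2 : ∀ (s : K) (v : ℕ → R) (y : R), ∑ m ∈ range N, s ^ m • (y * v m) =
      y * (∑ m ∈ range N, s ^ m • v m) := fun s v y => by
    rw [Finset.mul_sum]
    exact Finset.sum_congr rfl fun m _ => (mul_smul_comm _ _ _).symm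
  have h1 : ∀ t : K, Commute (v m) (∑ m ∈ range N, t ^ m • w m) := by
    intro t
    have h2 := coeff_zero (K := K) N (fun m => v m * (∑ m ∈ range N, t ^ m • w m) -
      (∑ m ∈ range N, t ^ m • w m) * v m) (by
        intro s _
        simp only [smul_sub, Finset.sum_sub_distrib]
        rw [e1, e2, sub_eq_zero]
        exact h s t) m hm
    exact sub_eq_zero.1 h2
  have h3 := coeff_zero (K := K) N (fun m' => v m * w m' - w m' * v m) (by
    intro t _
    simp only [smul_sub, Finset.sum_sub_distrib]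
    rw [e1, e2, sub_eq_zero]
    exact h1 t) m' hm'
  exact sub_eq_zero.1 h3

variable (R) in
/-- evaluation at a scalar -/
noncomputable def evK (t : K) : R[X] →+* R :=
  Polynomial.eval₂RingHom' (RingHom.id R) (algebraMap K R t) fun a => Algebra.commutes' t a |>.symm

theorem evK_apply (t : K) (p : R[X]) (N : ℕ) (hN : p.natDegree < N) :
    evK R t p = ∑ m ∈ range N, t ^ m • p.coeff m := by
  show p.eval₂ (RingHom.id R) (algebraMap K R t) = _
  rw [Polynomial.eval₂_eq_sum_range' _ hN]
  refine Finset.sum_congr rfl fun m _ => ?_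
  rw [RingHom.id_apply, ← map_pow, Algebra.smul_def, Algebra.commutes]

theorem evK_C (t : K) (a : R) : evK R t (C a) = a := by
  show (C a).eval₂ (RingHom.id R) (algebraMap K R t) = _
  rw [Polynomial.eval₂_C, RingHom.id_apply]

theorem evK_X (t : K) : evK R t X = algebraMap K R t := by
  show (X : R[X]).eval₂ (RingHom.id R) (algebraMap K R t) = _
  rw [Polynomial.eval₂_X]

theorem commute_coeff' (p q : R[X]) (h : ∀ s t : K, Commute (evK R s p) (evK R t q))
    (m m' : ℕ) : Commute (p.coeff m) (q.coeff m') := by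
  set N := p.natDegree + q.natDegree + m + m' + 1 with hN
  refine commute_coeff (K := K) N (fun m => p.coeff m) (fun m => q.coeff m) (fun s t => ?_)
    (by omega) (by omega)
  rw [← evK_apply s p N (by omega), ← evK_apply t q N (by omega)]
  exact h s t

end Extract

variable (K : Type*) [Field K] {n : Type*} [Fintype n] [DecidableEq n]

/-- the matrix `E + t ξ` over `U(gl_n)` -/
noncomputable def Et (ξ : Matrix n n K) (t : K) : Matrix n n (Ue K (Matrix n n K)) :=
  Matrix.of fun i j => ιU K _ (Matrix.single i j 1) + algebraMap K _ (t * ξ i j)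

theorem act_Dk (ξ : Matrix n n K) (t : K) (k : ℕ) :
    act K _ (Dk k (Et K ξ t)) 1 = TT K ξ t k (fun _ : Fin k => 0) := by
  have h1 := Dk_map (act K (Matrix n n K)).toRingHom k (Et K ξ t)
  have h2 : (Et K ξ t).map (act K (Matrix n n K)).toRingHom =
      Matrix.of fun i j => opM K ξ t i j := by
    ext i j : 1
    rw [Matrix.map_apply, Et, Matrix.of_apply, Matrix.of_apply, opM]
    refine LinearMap.ext fun ψ => ?_
    rw [AlgHom.toRingHom_eq_coe, RingHom.coe_coe, map_add, LinearMap.add_apply,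
      LinearMap.add_apply, act_ι, AlgHom.commutes, Algebra.algebraMap_eq_smul_one]
  have h3 : act K _ (Dk k (Et K ξ t)) = Dk k (Matrix.of fun i j => opM K ξ t i j) := by
    rw [← h2, ← h1]
    rfl
  rw [h3, Dk, TT, LinearMap.sum_apply]
  refine Finset.sum_congr rfl fun i _ => ?_
  rw [LinearMap.sum_apply]
  refine Finset.sum_congr rfl fun τ _ => ?_
  rw [Module.End.mul_apply, Module.End.intCast_apply, opP_full]
  congr 2
  rw [Finset.prod_eq_one]
  intro j hj
  rw [mem_filter] at hj
  have := j.2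
  omega

theorem Dk_commute [CharZero K] (ξ : Matrix n n K) (s t : K) (k k' : ℕ) :
    Commute (Dk k (Et K ξ s)) (Dk k' (Et K ξ t)) := by
  have h : ∀ (k : ℕ) (s : K), ∃ F ∈ cspan K ξ, Dk k (Et K ξ s) = nord K F := by
    intro k s
    refine ⟨_, TT_mem K ξ s k le_rfl (fun _ => 0), ?_⟩
    rw [nord_of_act]
    exact act_Dk K ξ s k
  obtain ⟨F, hF, h1⟩ := h k s
  obtain ⟨G, hG, h2⟩ := h k' t
  rw [h1, h2]
  exact cspan_commute K ξ hF hG

/-! ## transport to an arbitrary Lie algebra -/

section Map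

variable {A L : Type*} [LieRing A] [LieAlgebra K A] [LieRing L] [LieAlgebra K L]

/-- functoriality of the enveloping algebra -/
noncomputable def mapU (f : A →ₗ⁅K⁆ L) : Ue K A →ₐ[K] Ue K L :=
  UniversalEnvelopingAlgebra.lift K ((UniversalEnvelopingAlgebra.ι K).comp f)

theorem mapU_ι (f : A →ₗ⁅K⁆ L) (x : A) : mapU K f (ιU K A x) = ιU K L (f x) :=
  UniversalEnvelopingAlgebra.lift_ι_apply K _ x

end Map

variable {L : Type*} [LieRing L] [LieAlgebra K L]

/-- **the elements `D_k (x + t ξ)` have commuting coefficients** (output TA) -/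
theorem TA [CharZero K] (Y : Matrix n n K →ₗ[K] L)
    (hY : ∀ a b, ⁅Y a, Y b⁆ = Y (a * b - b * a)) (ξ : L →ₗ[K] K) (k m k' m' : ℕ) :
    Commute ((Dk k (xUt K Y ξ)).coeff m) ((Dk k' (xUt K Y ξ)).coeff m') := by
  let Y' : Matrix n n K →ₗ⁅K⁆ L := { Y with map_lie' := fun {a b} => (hY a b).symm }
  let ξ' : Matrix n n K := Matrix.of fun i j => ξ (Y (Matrix.single i j 1))
  have key : ∀ (k : ℕ) (t : K), evK (Ue K L) t (Dk k (xUt K Y ξ)) =
      mapU K Y' (Dk k (Et K ξ' t)) := by
    intro k t
    have h2 : mapU K Y' (Dk k (Et K ξ' t)) = Dk k ((Et K ξ' t).map (mapU K Y').toRingHom) :=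
      Dk_map (mapU K Y').toRingHom k (Et K ξ' t)
    rw [h2, Dk_map, ← Dk_transpose]
    congr 1
    ext i j : 1
    rw [Matrix.transpose_apply, Matrix.map_apply, Matrix.map_apply, xUt, Matrix.of_apply,
      map_add, map_mul, evK_C, evK_C, evK_X, Et, Matrix.of_apply, AlgHom.toRingHom_eq_coe,
      RingHom.coe_coe, map_add, mapU_ι, AlgHom.commutes, xU, Matrix.of_apply, xiHat,
      Matrix.of_apply, map_mul]
    exact congrArg _ (Algebra.commutes _ _).symm
  refine commute_coeff' (K := K) _ _ (fun s t => ?_) m m'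
  rw [key, key]
  exact (Dk_commute K ξ' s t k k').map (mapU K Y')

end Pool.Agent.helper90.MF
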