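import Mathlib
import Pool.Agent.helper90.MF.TA
import Pool.Agent.helper49.QA.Alt

/-!
# Output TA in the common format
-/

set_option autoImplicit false

namespace Pool.Agent.helper90.MF

open Pool.Agent.helper5.AS Finset Polynomial

attribute [local instance 100] LieRing.ofAssociativeRing

variable (K : Type*) [Field K] [CharZero K] {n : Type*} [Fintype n] [DecidableEq n]
  {L : Type*} [LieRing L] [LieAlgebra K L]

theorem altD_eq_Dk {R : Type*} [Ring R] (k : ℕ) (A : Matrix n n R) :
    Pool.Agent.helper49.QA.altD k A = Dk k A := by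
  unfold Pool.Agent.helper49.QA.altD Dk
  refine Finset.sum_congr rfl fun i _ => Finset.sum_congr rfl fun τ _ => ?_
  rw [zsmul_eq_mul]

/-- **type A**: the symmetrised minors of `x + s η` and of `x + t η` commute in `U(L)`, for every
matrix `η` of scalars -/
theorem alt_commute (Y : Matrix n n K →ₗ[K] L)
    (hY : ∀ a b, ⁅Y a, Y b⁆ = Y (a * b - b * a)) (η : Matrix n n K) (s t : K) (k l : ℕ) :
    Commute (Pool.Agent.helper49.QA.altD k (Matrix.of fun i j =>
        ιU K L (Y (Matrix.single j i 1)) + algebraMap K (Ue K L) (s * η i j)))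
      (Pool.Agent.helper49.QA.altD l (Matrix.of fun i j =>
        ιU K L (Y (Matrix.single j i 1)) + algebraMap K (Ue K L) (t * η i j))) := by
  let Y' : Matrix n n K →ₗ⁅K⁆ L := { Y with map_lie' := fun {a b} => (hY a b).symm }
  have key : ∀ (k : ℕ) (t : K), Pool.Agent.helper49.QA.altD k (Matrix.of fun i j =>
        ιU K L (Y (Matrix.single j i 1)) + algebraMap K (Ue K L) (t * η i j)) =
      mapU K Y' (Dk k (Et K η.transpose t)) := by
    intro k t
    have h2 : mapU K Y' (Dk k (Et K η.transpose t)) =
        Dk k ((Et K η.transpose t).map (mapU K Y').toRingHom) :=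
      Dk_map (mapU K Y').toRingHom k (Et K η.transpose t)
    rw [h2, altD_eq_Dk, ← Dk_transpose]
    congr 1
    ext i j : 1
    rw [Matrix.transpose_apply, Matrix.map_apply, Matrix.of_apply, Et, Matrix.of_apply,
      AlgHom.toRingHom_eq_coe, RingHom.coe_coe, map_add, mapU_ι, AlgHom.commutes,
      Matrix.transpose_apply]
    rfl
  rw [key, key]
  exact (Dk_commute K η.transpose s t k l).map (mapU K Y')

end Pool.Agent.helper90.MF
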