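import Mathlib
import Pool.Agent.helper90.MF.Fmt

/-!
# The graded sums of principal minors
-/

set_option autoImplicit false

namespace Pool.Agent.helper90.MF

open Finset Polynomial

variable {n : Type*} [Fintype n] [DecidableEq n] (par : n → Bool) {R S : Type*} [CommRing R]
  [CommRing S]

/-- `e_k` of the matrix `(ε ^ od i j * M i j)` as a polynomial in `ε` -/
noncomputable def ez (M : Matrix n n R) (k : ℕ) : R[X] :=
  (gd (Matrix.of fun i j => (X : R[X]) ^ od par i j * C (M i j))).coeff k

/-- the coefficient of `ε ^ b_k` -/
noncomputable def hk (M : Matrix n n R) (k : ℕ) : R := (ez par M k).coeff (bk par k)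

theorem gd_map (f : R →+* S) (M : Matrix n n R) (k : ℕ) :
    (gd (M.map f)).coeff k = f ((gd M).coeff k) := by
  rw [gd, gd, Matrix.coeff_det_one_add_X_smul_eq_sum_minors,
    Matrix.coeff_det_one_add_X_smul_eq_sum_minors, map_sum]
  refine Finset.sum_congr rfl fun s _ => ?_
  rw [RingHom.map_det]
  rfl

theorem gd_transpose (M : Matrix n n R) : gd M.transpose = gd M := by
  rw [gd, gd, ← Matrix.det_transpose]
  congr 1
  ext i j : 1
  simp only [Matrix.transpose_apply, Matrix.add_apply, Matrix.smul_apply, Matrix.map_apply,
    Matrix.one_apply, eq_comm]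

theorem ez_eval (M : Matrix n n R) (k : ℕ) (u : R) :
    (ez par M k).eval u = (gd (Matrix.of fun i j => u ^ od par i j * M i j)).coeff k := by
  rw [ez, ← Polynomial.coe_evalRingHom, ← gd_map]
  congr 2
  ext i j
  rw [Matrix.map_apply, Matrix.of_apply, Matrix.of_apply, Polynomial.coe_evalRingHom,
    Polynomial.eval_mul, Polynomial.eval_pow, Polynomial.eval_X, Polynomial.eval_C]

theorem ez_map (f : R →+* S) (M : Matrix n n R) (k : ℕ) :
    ez par (M.map f) k = (ez par M k).map f := by
  rw [ez, ez, ← Polynomial.coe_mapRingHom, ← gd_map]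
  congr 2
  ext i j : 1
  rw [Matrix.map_apply, Matrix.of_apply, Matrix.of_apply, Matrix.map_apply,
    Polynomial.coe_mapRingHom, Polynomial.map_mul, Polynomial.map_pow, Polynomial.map_X,
    Polynomial.map_C]

theorem hk_map (f : R →+* S) (M : Matrix n n R) (k : ℕ) :
    hk par (M.map f) k = f (hk par M k) := by
  rw [hk, ez_map, Polynomial.coeff_map, hk]

theorem hk_transpose (M : Matrix n n R) (k : ℕ) : hk par M.transpose k = hk par M k := by
  rw [hk, hk, ez, ez, ← gd_transpose]
  congr 3
  ext i j : 1
  simp only [Matrix.transpose_apply, Matrix.of_apply, od, eq_comm]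

/-- the number of odd entries met by a permutation -/
def oddCount (σ : Equiv.Perm n) : ℕ := ∑ i, od par (σ i) i

theorem oddCount_le (σ : Equiv.Perm n) (k : ℕ)
    (hk : (univ.filter fun i => σ i ≠ i).card ≤ k) : oddCount par σ ≤ bk par k := by
  set a := (univ.filter fun i => par (σ i) = true ∧ par i = false).card with ha
  set b := (univ.filter fun i => par (σ i) = false ∧ par i = true).card with hb
  set c := (univ.filter fun i => par (σ i) = true ∧ par i = true).card with hc
  have h1 : oddCount par σ = a + b := by
    have h2 : ∀ i, od par (σ i) i = (if par (σ i) = true ∧ par i = false then 1 else 0) +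
        if par (σ i) = false ∧ par i = true then 1 else 0 := by
      intro i
      unfold od
      rcases par (σ i) <;> rcases par i <;> simp
    rw [oddCount, Finset.sum_congr rfl fun i _ => h2 i, Finset.sum_add_distrib,
      Finset.sum_boole, Finset.sum_boole]
    rfl
  have h3 : a + c = (univ.filter fun i => par i = true).card := by
    have h4 : (univ.filter fun i => par (σ i) = true).card =
        (univ.filter fun i => par i = true).card := by
      refine Finset.card_bij (fun i _ => σ i) ?_ ?_ ?_
      · intro i hi
        rw [mem_filter] at hi ⊢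
        exact ⟨mem_univ _, hi.2⟩
      · intro i _ j _ h
        exact σ.injective h
      · intro j hj
        rw [mem_filter] at hj
        refine ⟨σ.symm j, ?_, σ.apply_symm_apply j⟩
        rw [mem_filter, σ.apply_symm_apply]
        exact ⟨mem_univ _, hj.2⟩
    rw [← h4, ha, hc, ← Finset.card_union_of_disjoint]
    · congr 1
      ext i
      simp only [mem_union, mem_filter, mem_univ, true_and]
      rcases par (σ i) <;> rcases par i <;> simp
    · rw [Finset.disjoint_filter]
      rintro i _ ⟨_, h⟩ ⟨_, h'⟩
      rw [h] at h'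
      exact absurd h' (by decide)
  have h5 : b + c = (univ.filter fun i => par i = true).card := by
    rw [hb, hc, ← Finset.card_union_of_disjoint]
    · congr 1
      ext i
      simp only [mem_union, mem_filter, mem_univ, true_and]
      rcases par (σ i) <;> rcases par i <;> simp
    · rw [Finset.disjoint_filter]
      rintro i _ ⟨h, _⟩ ⟨h', _⟩
      rw [h] at h'
      exact absurd h' (by decide)
  have h6 : a ≤ (univ.filter fun i => par i = false).card := by
    refine Finset.card_le_card fun i hi => ?_
    rw [mem_filter] at hi ⊢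
    exact ⟨hi.1, hi.2.2⟩
  have h7 : a + b ≤ (univ.filter fun i => σ i ≠ i).card := by
    rw [ha, hb, ← Finset.card_union_of_disjoint]
    · refine Finset.card_le_card fun i hi => ?_
      rw [mem_union, mem_filter, mem_filter] at hi
      rw [mem_filter]
      refine ⟨mem_univ _, fun h => ?_⟩
      rw [h] at hi
      rcases hi with ⟨_, h8, h9⟩ | ⟨_, h8, h9⟩
      · rw [h8] at h9
        exact absurd h9 (by decide)
      · rw [h8] at h9
        exact absurd h9 (by decide)
    · rw [Finset.disjoint_filter]
      rintro i _ ⟨h, _⟩ ⟨h', _⟩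
      rw [h] at h'
      exact absurd h' (by decide)
  rw [h1, bk]
  omega

theorem ez_coeff (M : Matrix n n R) (k s : ℕ) (hs : bk par k < s) :
    (ez par M k).coeff s = 0 := by
  rw [ez, gd, Matrix.det_apply', Polynomial.finsetSum_coeff, Polynomial.finsetSum_coeff]
  refine Finset.sum_eq_zero fun σ _ => ?_
  have h1 : ∀ i, (1 + (X : R[X][X]) •
      (Matrix.of fun i j => (X : R[X]) ^ od par i j * C (M i j)).map C) (σ i) i =
      if σ i = i then 1 + X * C (C (M i i)) else
        X * C ((X : R[X]) ^ od par (σ i) i * C (M (σ i) i)) := by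
    intro i
    rw [Matrix.add_apply, Matrix.smul_apply, Matrix.map_apply, Matrix.of_apply, smul_eq_mul,
      Matrix.one_apply]
    split_ifs with h
    · rw [h, od, if_pos rfl, pow_zero, one_mul]
    · rw [zero_add]
  have h2 : ∏ i, (1 + (X : R[X][X]) •
      (Matrix.of fun i j => (X : R[X]) ^ od par i j * C (M i j)).map C) (σ i) i =
      X ^ (univ.filter fun i => σ i ≠ i).card * (C (X ^ oddCount par σ *
        C (∏ i ∈ univ.filter (fun i => σ i ≠ i), M (σ i) i)) *
        (∏ i ∈ univ.filter (fun i => σ i = i), (1 + X * C (M i i))).map C) := by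
    rw [Finset.prod_congr rfl fun i _ => h1 i, Finset.prod_ite]
    have h3 : ∏ i ∈ univ.filter (fun i => σ i = i), (1 + (X : R[X][X]) * C (C (M i i))) =
        (∏ i ∈ univ.filter (fun i => σ i = i), (1 + X * C (M i i))).map C := by
      rw [Polynomial.map_prod]
      refine Finset.prod_congr rfl fun i _ => ?_
      simp
    have h4 : ∏ i ∈ univ.filter (fun i => ¬ σ i = i),
        ((X : R[X][X]) * C ((X : R[X]) ^ od par (σ i) i * C (M (σ i) i))) =
        X ^ (univ.filter fun i => σ i ≠ i).card * C (X ^ oddCount par σ *
        C (∏ i ∈ univ.filter (fun i => σ i ≠ i), M (σ i) i)) := by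
      rw [Finset.prod_mul_distrib, Finset.prod_const, ← map_prod, Finset.prod_mul_distrib,
        Finset.prod_pow_eq_pow_sum, ← map_prod]
      congr 4
      rw [oddCount, Finset.sum_filter]
      refine Finset.sum_congr rfl fun i _ => ?_
      split_ifs with h
      · rw [h, od, if_pos rfl]
      · rfl
    rw [h3, h4]
    ring
  rw [h2, ← Polynomial.C_eq_intCast, Polynomial.coeff_C_mul, Polynomial.coeff_X_pow_mul']
  split_ifs with h5
  · have h6 := oddCount_le par σ k h5
    rw [Polynomial.coeff_C_mul, Polynomial.coeff_map, ← Polynomial.C_eq_intCast,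
      Polynomial.coeff_C_mul, mul_assoc, ← map_mul, Polynomial.coeff_X_pow_mul']
    split_ifs with h7
    · rw [Polynomial.coeff_C, if_neg (by omega), mul_zero]
    · rw [mul_zero]
  · rw [mul_zero, Polynomial.coeff_zero]

/-- the values of `e_k (ε ^ od M)` as sums over the graded parts -/
theorem ez_eval_sum {K : Type*} [Field K] [Algebra K R] (M : Matrix n n R) (k : ℕ) (u : K) :
    (ez par M k).eval (algebraMap K R u) =
      ∑ s ∈ range (bk par k + 1), u ^ s • (ez par M k).coeff s := by
  rw [Polynomial.eval_eq_sum_range' (n := bk par k + 1)]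
  · refine Finset.sum_congr rfl fun m _ => ?_
    rw [Algebra.smul_def, map_pow, mul_comm]
  · rw [Nat.lt_succ_iff, Polynomial.natDegree_le_iff_coeff_eq_zero]
    intro m hm
    exact ez_coeff par M k m hm

end Pool.Agent.helper90.MF
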