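import Mathlib
import Pool.Agent.helper90.MF.Fmt

/-!
# The contracted matrix algebra
-/

set_option autoImplicit false

namespace Pool.Agent.helper90.MF

open Finset

variable {n : Type*} [Fintype n] [DecidableEq n]

/-- matrices with the contracted product -/
def CM (par : n → Bool) (K : Type*) : Type _ := Matrix n n K

section

variable (par : n → Bool) (K : Type*) [Field K]

noncomputable instance : AddCommGroup (CM par K) := inferInstanceAs (AddCommGroup (Matrix n n K))

noncomputable instance : Module K (CM par K) := inferInstanceAs (Module K (Matrix n n K))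

/-- the identity map -/
noncomputable def toCM : Matrix n n K ≃ₗ[K] CM par K := LinearEquiv.refl K (Matrix n n K)

variable {par K}

/-- the structure constants -/
def wt (K : Type*) [Field K] (par : n → Bool) (i k j : n) : K :=
  if par i ≠ par k ∧ par k ≠ par j then 0 else 1

omit [DecidableEq n] in
theorem cmul_apply (a b : Matrix n n K) (i j : n) :
    cmul K par a b i j = ∑ k, wt K par i k j * (a i k * b k j) := by
  unfold cmul wt
  rw [Matrix.of_apply]
  refine Finset.sum_congr rfl fun k _ => ?_
  split_ifs
  · rw [zero_mul]
  · rw [one_mul]

omit [Fintype n] [DecidableEq n] in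
theorem wt_assoc (i k l j : n) :
    wt K par i k l * wt K par i l j = wt K par i k j * wt K par k l j := by
  unfold wt
  rcases hi : par i <;> rcases hk : par k <;> rcases hl : par l <;> rcases hj : par j <;> simp

omit [Fintype n] [DecidableEq n] in
theorem wt_left (i j : n) : wt K par i i j = 1 := by
  unfold wt
  simp

omit [Fintype n] [DecidableEq n] in
theorem wt_right (i j : n) : wt K par i j j = 1 := by
  unfold wt
  simp

omit [DecidableEq n] in
theorem cmul_assoc (a b c : Matrix n n K) :
    cmul K par (cmul K par a b) c = cmul K par a (cmul K par b c) := by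
  ext i j
  simp only [cmul_apply, Finset.sum_mul, Finset.mul_sum]
  rw [Finset.sum_comm]
  refine Finset.sum_congr rfl fun k _ => Finset.sum_congr rfl fun l _ => ?_
  have h := wt_assoc (K := K) (par := par) i k l j
  calc wt K par i l j * (wt K par i k l * (a i k * b k l) * c l j) =
      (wt K par i k l * wt K par i l j) * (a i k * b k l * c l j) := by ring
    _ = _ := by
      rw [h]
      ring

theorem one_cmul (a : Matrix n n K) : cmul K par 1 a = a := by
  ext i j
  rw [cmul_apply, Finset.sum_eq_single i]
  · rw [wt_left, Matrix.one_apply_eq, one_mul, one_mul]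
  · intro k _ hk
    rw [Matrix.one_apply_ne hk.symm, zero_mul, mul_zero]
  · exact fun h => absurd (mem_univ i) h

theorem cmul_one (a : Matrix n n K) : cmul K par a 1 = a := by
  ext i j
  rw [cmul_apply, Finset.sum_eq_single j]
  · rw [wt_right, Matrix.one_apply_eq, mul_one, one_mul]
  · intro k _ hk
    rw [Matrix.one_apply_ne hk, mul_zero, mul_zero]
  · exact fun h => absurd (mem_univ j) h

omit [DecidableEq n] in
theorem cmul_add (a b c : Matrix n n K) :
    cmul K par a (b + c) = cmul K par a b + cmul K par a c := by
  ext i j
  rw [Matrix.add_apply, cmul_apply, cmul_apply, cmul_apply, ← Finset.sum_add_distrib]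
  refine Finset.sum_congr rfl fun k _ => ?_
  rw [Matrix.add_apply]
  ring

omit [DecidableEq n] in
theorem add_cmul (a b c : Matrix n n K) :
    cmul K par (a + b) c = cmul K par a c + cmul K par b c := by
  ext i j
  rw [Matrix.add_apply, cmul_apply, cmul_apply, cmul_apply, ← Finset.sum_add_distrib]
  refine Finset.sum_congr rfl fun k _ => ?_
  rw [Matrix.add_apply]
  ring

omit [DecidableEq n] in
theorem smul_cmul (r : K) (a b : Matrix n n K) :
    cmul K par (r • a) b = r • cmul K par a b := by
  ext i j
  rw [Matrix.smul_apply, cmul_apply, cmul_apply, Finset.smul_sum]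
  refine Finset.sum_congr rfl fun k _ => ?_
  rw [Matrix.smul_apply, smul_eq_mul, smul_eq_mul]
  ring

omit [DecidableEq n] in
theorem cmul_smul (r : K) (a b : Matrix n n K) :
    cmul K par a (r • b) = r • cmul K par a b := by
  ext i j
  rw [Matrix.smul_apply, cmul_apply, cmul_apply, Finset.smul_sum]
  refine Finset.sum_congr rfl fun k _ => ?_
  rw [Matrix.smul_apply, smul_eq_mul, smul_eq_mul]
  ring

noncomputable instance : Ring (CM par K) :=
  { (inferInstanceAs (AddCommGroup (Matrix n n K)) : AddCommGroup (CM par K)) with
    mul := fun a b => cmul K par a b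
    one := (1 : Matrix n n K)
    mul_assoc := fun a b c => cmul_assoc (K := K) (par := par) a b c
    one_mul := fun a => one_cmul (K := K) (par := par) a
    mul_one := fun a => cmul_one (K := K) (par := par) a
    left_distrib := fun a b c => cmul_add (K := K) (par := par) a b c
    right_distrib := fun a b c => add_cmul (K := K) (par := par) a b c
    zero_mul := fun a => by
      show cmul K par (0 : Matrix n n K) a = 0
      have h := smul_cmul (K := K) (par := par) 0 0 a
      rwa [zero_smul, zero_smul] at h
    mul_zero := fun a => by
      show cmul K par a (0 : Matrix n n K) = 0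
      have h := cmul_smul (K := K) (par := par) 0 a 0
      rwa [zero_smul, zero_smul] at h }

noncomputable instance : Algebra K (CM par K) :=
  Algebra.ofModule (fun r a b => smul_cmul (K := K) (par := par) r a b)
    (fun r a b => cmul_smul (K := K) (par := par) r a b)

theorem toCM_mul (a b : Matrix n n K) :
    toCM par K a * toCM par K b = toCM par K (cmul K par a b) := rfl

end

end Pool.Agent.helper90.MF
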