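import Mathlib
import Pool.Agent.helper90.MF.Extract

/-!
# Limits of polynomial families
-/

set_option autoImplicit false

namespace Pool.Agent.helper90.MF

open Finset

variable {K : Type*} [Field K] {M N : Type*} [AddCommGroup M] [Module K M] [AddCommGroup N]
  [Module K N]

/-- `F` agrees for `ε ≠ 0` with a polynomial family whose value at `0` is `v` -/
def PLim (F : K → M) (v : M) : Prop :=
  ∃ (d : ℕ) (a : ℕ → M), (∀ i, d < i → a i = 0) ∧
    (∀ ε : K, ε ≠ 0 → F ε = ∑ i ∈ range (d + 1), ε ^ i • a i) ∧ a 0 = v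

theorem PLim.congr {F G : K → M} {v : M} (h : PLim F v) (hFG : ∀ ε, ε ≠ 0 → G ε = F ε) :
    PLim G v := by
  obtain ⟨d, a, h1, h2, h3⟩ := h
  exact ⟨d, a, h1, fun ε hε => by rw [hFG ε hε, h2 ε hε], h3⟩

theorem PLim.const (v : M) : PLim (fun _ : K => v) v :=
  ⟨0, fun i => if i = 0 then v else 0, fun i hi => if_neg (by omega), fun ε _ => by
    rw [Finset.sum_range_one, pow_zero, one_smul]; exact (if_pos rfl).symm, if_pos rfl⟩

theorem extend_sum {d e : ℕ} (hde : d ≤ e) {a : ℕ → M} (ha : ∀ i, d < i → a i = 0) (ε : K) :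
    ∑ i ∈ range (d + 1), ε ^ i • a i = ∑ i ∈ range (e + 1), ε ^ i • a i := by
  refine Finset.sum_subset (Finset.range_mono (by omega)) fun i _ hi => ?_
  rw [mem_range, not_lt] at hi
  rw [ha i (by omega), smul_zero]

theorem PLim.add {F G : K → M} {v w : M} (hF : PLim F v) (hG : PLim G w) :
    PLim (fun ε => F ε + G ε) (v + w) := by
  obtain ⟨d, a, h1, h2, h3⟩ := hF
  obtain ⟨e, b, h1', h2', h3'⟩ := hG
  refine ⟨max d e, fun i => a i + b i, fun i hi => ?_, fun ε hε => ?_, ?_⟩
  · beta_reduce
    rw [h1 i (by omega), h1' i (by omega), add_zero]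
  · beta_reduce
    rw [h2 ε hε, h2' ε hε, extend_sum (le_max_left d e) h1, extend_sum (le_max_right d e) h1',
      ← Finset.sum_add_distrib]
    exact Finset.sum_congr rfl fun i _ => (smul_add _ _ _).symm
  · show a 0 + b 0 = v + w
    rw [h3, h3']

theorem PLim.map {F : K → M} {v : M} (hF : PLim F v) (T : M →ₗ[K] N) :
    PLim (fun ε => T (F ε)) (T v) := by
  obtain ⟨d, a, h1, h2, h3⟩ := hF
  refine ⟨d, fun i => T (a i), fun i hi => ?_, fun ε hε => ?_, ?_⟩
  · show T (a i) = 0
    rw [h1 i hi, map_zero]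
  · beta_reduce
    rw [h2 ε hε, map_sum]
    exact Finset.sum_congr rfl fun i _ => map_smul T _ _
  · show T (a 0) = T v
    rw [h3]

theorem PLim.neg {F : K → M} {v : M} (hF : PLim F v) : PLim (fun ε => - F ε) (-v) :=
  hF.map (-LinearMap.id)

theorem PLim.sub {F G : K → M} {v w : M} (hF : PLim F v) (hG : PLim G w) :
    PLim (fun ε => F ε - G ε) (v - w) := by
  rw [sub_eq_add_neg]
  exact (hF.add hG.neg).congr fun ε _ => sub_eq_add_neg _ _

theorem PLim.sum {S : Type*} (s : Finset S) {F : S → K → M} {v : S → M}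
    (h : ∀ i ∈ s, PLim (F i) (v i)) : PLim (fun ε => ∑ i ∈ s, F i ε) (∑ i ∈ s, v i) := by
  classical
  induction s using Finset.induction_on with
  | empty =>
    rw [Finset.sum_empty]
    exact (PLim.const 0).congr fun ε _ => Finset.sum_empty
  | insert a s ha ih =>
    rw [Finset.sum_insert ha]
    refine ((h a (Finset.mem_insert_self a s)).add
      (ih fun i hi => h i (Finset.mem_insert_of_mem hi))).congr fun ε _ => ?_
    exact Finset.sum_insert ha

theorem PLim.smul_pow {F : K → M} {v : M} (hF : PLim F v) (k : ℕ) :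
    PLim (fun ε => ε ^ k • F ε) (if k = 0 then v else 0) := by
  obtain ⟨d, a, h1, h2, h3⟩ := hF
  refine ⟨d + k, fun i => if k ≤ i then a (i - k) else 0, fun i hi => ?_, fun ε hε => ?_, ?_⟩
  · show (if k ≤ i then a (i - k) else 0) = 0
    rw [if_pos (by omega), h1 (i - k) (by omega)]
  · have h4 : ∑ i ∈ range (d + k + 1), ε ^ i • (if k ≤ i then a (i - k) else 0) =
        ∑ i ∈ range (d + 1), ε ^ (k + i) • a i := by
      have h5 : d + k + 1 = k + (d + 1) := by omega
      rw [h5, Finset.sum_range_add, Finset.sum_eq_zero, zero_add]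
      · refine Finset.sum_congr rfl fun i _ => ?_
        rw [if_pos (Nat.le_add_right k i), Nat.add_sub_cancel_left]
      · intro i hi
        rw [mem_range] at hi
        rw [if_neg (by omega), smul_zero]
    beta_reduce
    rw [h2 ε hε, Finset.smul_sum, h4]
    exact Finset.sum_congr rfl fun i _ => by rw [smul_smul, pow_add]
  · show (if k ≤ 0 then a (0 - k) else 0) = if k = 0 then v else 0
    by_cases hk : k = 0
    · subst hk
      simpa using h3
    · rw [if_neg (by omega), if_neg hk]

theorem PLim.unique [Infinite K] {F : K → M} {v w : M} (hF : PLim F v) (hG : PLim F w) :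
    v = w := by
  obtain ⟨d, a, h1, h2, h3⟩ := hF.sub hG
  have h4 := coeff_zero (K := K) (d + 1) a (fun ε hε => by
    rw [← h2 ε hε]
    exact sub_self _) 0 (Nat.succ_pos d)
  rw [h3] at h4
  exact sub_eq_zero.1 h4

end Pool.Agent.helper90.MF
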