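import Mathlib
import Pool.Agent.helper90.MF.PLim
import Pool.Agent.helper90.MF.CM
import Pool.Agent.helper90.MF.Faith

/-!
# The contraction of the star product
-/

set_option autoImplicit false
set_option linter.unusedSectionVars false

namespace Pool.Agent.helper90.MF

open Pool.Agent.helper5.AS Finset

attribute [local instance 100] LieRing.ofAssociativeRing

variable (K : Type*) [Field K] {n : Type*} [Fintype n] [DecidableEq n] (par : n → Bool)

/-- the odd entries are multiplied by `ε` -/
noncomputable def sc (ε : K) : Matrix n n K →ₗ[K] Matrix n n K where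
  toFun := fun a => Matrix.of fun i j => ε ^ od par i j * a i j
  map_add' := fun a b => by
    ext i j
    simp only [Matrix.of_apply, Matrix.add_apply, mul_add]
  map_smul' := fun c a => by
    ext i j
    simp only [Matrix.of_apply, Matrix.smul_apply, smul_eq_mul, RingHom.id_apply]
    ring

theorem sc_apply (ε : K) (a : Matrix n n K) (i j : n) :
    sc K par ε a i j = ε ^ od par i j * a i j := rfl

theorem sc_inv {ε : K} (hε : ε ≠ 0) (a : Matrix n n K) : sc K par ε⁻¹ (sc K par ε a) = a := by
  ext i j
  rw [sc_apply, sc_apply, ← mul_assoc, ← mul_pow, inv_mul_cancel₀ hε, one_pow, one_mul]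

/-- the induced homomorphism of the symmetric algebra -/
noncomputable def Sc (ε : K) : Sy K (Matrix n n K) →ₐ[K] Sy K (Matrix n n K) :=
  SymmetricAlgebra.lift (ιS K (Matrix n n K) ∘ₗ sc K par ε)

theorem Sc_ι (ε : K) (a : Matrix n n K) :
    Sc K par ε (ιS K _ a) = ιS K _ (sc K par ε a) := SymmetricAlgebra.lift_ι_apply ..

theorem Sc_inv {ε : K} (hε : ε ≠ 0) (ψ : Sy K (Matrix n n K)) :
    Sc K par ε⁻¹ (Sc K par ε ψ) = ψ := by
  have h : (Sc K par ε⁻¹).comp (Sc K par ε) = AlgHom.id K _ := by
    refine SymmetricAlgebra.algHom_ext (LinearMap.ext fun a => ?_)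
    show Sc K par ε⁻¹ (Sc K par ε (ιS K _ a)) = ιS K _ a
    rw [Sc_ι, Sc_ι, sc_inv K par hε]
  exact congrArg (fun F : Sy K (Matrix n n K) →ₐ[K] Sy K (Matrix n n K) => F ψ) h

theorem Sc_inv' {ε : K} (hε : ε ≠ 0) (ψ : Sy K (Matrix n n K)) :
    Sc K par ε (Sc K par ε⁻¹ ψ) = ψ := by
  have h := Sc_inv K par (inv_ne_zero hε) ψ
  rwa [inv_inv] at h

/-- the identity on the level of the symmetric algebras -/
noncomputable def thC : Sy K (Matrix n n K) →ₐ[K] Sy K (CM par K) :=
  SymmetricAlgebra.lift (ιS K (CM par K) ∘ₗ (toCM par K).toLinearMap)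

theorem thC_ι (a : Matrix n n K) : thC K par (ιS K _ a) = ιS K _ (toCM par K a) :=
  SymmetricAlgebra.lift_ι_apply ..

/-- the right multiplication by `x` in the contracted algebra -/
noncomputable def rC (x : Matrix n n K) : Matrix n n K →ₗ[K] Matrix n n K where
  toFun := fun y => cmul K par y x
  map_add' := fun a b => add_cmul a b x
  map_smul' := fun c a => smul_cmul c a x

/-- the odd-odd part of the right multiplication by `x` -/
noncomputable def rO (x : Matrix n n K) : Matrix n n K →ₗ[K] Matrix n n K :=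
  LinearMap.mulRight K x - rC K par x

theorem rC_apply (x y : Matrix n n K) : rC K par x y = cmul K par y x := rfl

theorem rO_apply (x y : Matrix n n K) : rO K par x y = y * x - cmul K par y x := rfl

theorem sc_mul {ε : K} (hε : ε ≠ 0) (x y : Matrix n n K) :
    sc K par ε⁻¹ (sc K par ε y * sc K par ε x) = rC K par x y + ε ^ 2 • rO K par x y := by
  ext i j
  rw [sc_apply, Matrix.mul_apply, Matrix.add_apply, Matrix.smul_apply, rC_apply, rO_apply,
    Matrix.sub_apply, cmul_apply, Matrix.mul_apply, smul_eq_mul, mul_sub, Finset.mul_sum,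
    Finset.mul_sum, Finset.mul_sum, ← Finset.sum_sub_distrib, ← Finset.sum_add_distrib]
  refine Finset.sum_congr rfl fun k _ => ?_
  rw [sc_apply, sc_apply]
  unfold od wt
  rcases hi : par i <;> rcases hk : par k <;> rcases hj : par j <;> simp <;> field_simp

/-- the derivation of `S(gl_n)` which extends a linear map of the letters -/
noncomputable def dT (T : Matrix n n K →ₗ[K] Matrix n n K) :
    Derivation K (Sy K (Matrix n n K)) (Sy K (Matrix n n K)) := derD (ιS K _ ∘ₗ T)

theorem dT_ι (T : Matrix n n K →ₗ[K] Matrix n n K) (y : Matrix n n K) :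
    dT K T (ιS K _ y) = ιS K _ (T y) := derD_ι _ _

theorem dT_prod (T : Matrix n n K →ₗ[K] Matrix n n K) {m : ℕ} (z : Fin m → Matrix n n K) :
    dT K T (∏ i, ιS K _ (z i)) = ∑ i, ∏ j, ιS K _ (Function.update z i (T (z i)) j) := by
  rw [deriv_prod]
  refine Finset.sum_congr rfl fun i _ => ?_
  rw [dT_ι, ← Finset.mul_prod_erase Finset.univ _ (Finset.mem_univ i),
    Function.update_self, mul_comm]
  congr 1
  refine Finset.prod_congr rfl fun j hj => ?_
  rw [Function.update_of_ne (Finset.ne_of_mem_erase hj)]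

/-- the derivation of the symmetric algebra of the contracted algebra -/
noncomputable def dT' (T : Matrix n n K →ₗ[K] Matrix n n K) :
    Derivation K (Sy K (CM par K)) (Sy K (CM par K)) :=
  derD (ιS K _ ∘ₗ (toCM par K).toLinearMap ∘ₗ T ∘ₗ (toCM par K).symm.toLinearMap)

theorem dT'_ι (T : Matrix n n K →ₗ[K] Matrix n n K) (y : Matrix n n K) :
    dT' K par T (ιS K _ (toCM par K y)) = ιS K _ (toCM par K (T y)) := derD_ι _ _

theorem thC_dT (T : Matrix n n K →ₗ[K] Matrix n n K) (ψ : Sy K (Matrix n n K)) :
    thC K par (dT K T ψ) = dT' K par T (thC K par ψ) := by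
  induction ψ using SymmetricAlgebra.induction with
  | algebraMap r =>
    rw [Derivation.map_algebraMap, AlgHom.commutes, Derivation.map_algebraMap, map_zero]
  | ι x =>
    rw [dT_ι, thC_ι, thC_ι, dT'_ι]
  | mul a b ha hb =>
    rw [Derivation.leibniz, map_add, smul_eq_mul, smul_eq_mul, map_mul, map_mul, map_mul,
      Derivation.leibniz, smul_eq_mul, smul_eq_mul, ha, hb]
  | add a b ha hb => rw [map_add, map_add, map_add, map_add, ha, hb]

theorem dT'_rC (x : Matrix n n K) : dT' K par (rC K par x) = dR K (toCM par K x) := by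
  refine der_ext fun y => ?_
  obtain ⟨y, rfl⟩ := (toCM par K).surjective y
  rw [dT'_ι, dR_ι, rC_apply, toCM_mul]

/-- the rescaled right action -/
theorem rho_sc {ε : K} (hε : ε ≠ 0) (x : Matrix n n K) (ψ : Sy K (Matrix n n K)) :
    Sc K par ε⁻¹ (rho K (sc K par ε x) (Sc K par ε ψ)) =
      ιS K _ x * ψ + dT K (rC K par x) ψ + ε ^ 2 • dT K (rO K par x) ψ := by
  have key : Sc K par ε⁻¹ (dR K (sc K par ε x) (Sc K par ε ψ)) =
      dT K (rC K par x) ψ + ε ^ 2 • dT K (rO K par x) ψ := by
    induction ψ using SymmetricAlgebra.induction with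
    | algebraMap r =>
      rw [AlgHom.commutes, Derivation.map_algebraMap, Derivation.map_algebraMap,
        Derivation.map_algebraMap, map_zero, smul_zero, add_zero]
    | ι y =>
      rw [Sc_ι, dR_ι, Sc_ι, sc_mul K par hε, dT_ι, dT_ι, map_add, map_smul]
    | mul a b ha hb =>
      rw [map_mul, Derivation.leibniz, map_add, smul_eq_mul, smul_eq_mul, map_mul, map_mul,
        Sc_inv K par hε, Sc_inv K par hε, ha, hb, Derivation.leibniz, Derivation.leibniz]
      simp only [smul_eq_mul, mul_add, smul_add, mul_smul_comm]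
      ring
    | add a b ha hb =>
      rw [map_add, map_add, map_add, ha, hb, map_add, map_add, smul_add]
      ring
  rw [rho_apply, map_add, map_mul, Sc_ι, sc_inv K par hε, Sc_inv K par hε, key, add_assoc]

variable [CharZero K]

/-- the conjugated operator of `f` -/
noncomputable def Dε (f : Sy K (Matrix n n K)) (ε : K) :
    Sy K (Matrix n n K) →ₗ[K] Sy K (Matrix n n K) :=
  (Sc K par ε⁻¹).toLinearMap ∘ₗ act K _ (nord K (Sc K par ε f)) ∘ₗ (Sc K par ε).toLinearMap

theorem Dε_apply (f : Sy K (Matrix n n K)) (ε : K) (ψ : Sy K (Matrix n n K)) :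
    Dε K par f ε ψ = Sc K par ε⁻¹ (act K _ (nord K (Sc K par ε f)) (Sc K par ε ψ)) := rfl

theorem Dε_one (f : Sy K (Matrix n n K)) {ε : K} (hε : ε ≠ 0) : Dε K par f ε 1 = f := by
  rw [Dε_apply, map_one, act_nord, Sc_inv K par hε]

theorem Dε_rho (f : Sy K (Matrix n n K)) {ε : K} (hε : ε ≠ 0) (x : Matrix n n K)
    (ψ : Sy K (Matrix n n K)) :
    Dε K par f ε (Sc K par ε⁻¹ (rho K (sc K par ε x) (Sc K par ε ψ))) =
      Sc K par ε⁻¹ (rho K (sc K par ε x) (Sc K par ε (Dε K par f ε ψ))) := by
  rw [Dε_apply, Sc_inv' K par hε, act_rho, Dε_apply, Sc_inv' K par hε]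

theorem Dε_prod_lim (f : Sy K (Matrix n n K)) (m : ℕ) (z : Fin m → Matrix n n K) :
    PLim (fun ε : K => thC K par (Dε K par f ε (∏ i, ιS K _ (z i))))
      (act K _ (nord K (thC K par f)) (∏ i, ιS K _ (toCM par K (z i)))) := by
  induction m with
  | zero =>
    simp only [Finset.univ_eq_empty, Finset.prod_empty]
    rw [act_nord]
    refine (PLim.const (K := K) (thC K par f)).congr fun ε hε => ?_
    rw [Dε_one K par f hε]
  | succ m ih =>
    set z' : Fin m → Matrix n n K := fun i => z i.succ with hz'
    set g' : Sy K (Matrix n n K) := ∏ i, ιS K _ (z' i) with hg'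
    have h1 : ∀ ε : K, ε ≠ 0 → thC K par (Dε K par f ε (∏ i, ιS K _ (z i))) =
        rho K (toCM par K (z 0)) (thC K par (Dε K par f ε g')) +
        ε ^ 2 • dT' K par (rO K par (z 0)) (thC K par (Dε K par f ε g')) -
        ∑ i, thC K par (Dε K par f ε
          (∏ j, ιS K _ (Function.update z' i (rC K par (z 0) (z' i)) j))) -
        ∑ i, ε ^ 2 • thC K par (Dε K par f ε
          (∏ j, ιS K _ (Function.update z' i (rO K par (z 0) (z' i)) j))) := by
      intro ε hε
      have h2 : (∏ i, ιS K _ (z i)) = Sc K par ε⁻¹ (rho K (sc K par ε (z 0)) (Sc K par ε g')) -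
          dT K (rC K par (z 0)) g' - ε ^ 2 • dT K (rO K par (z 0)) g' := by
        rw [rho_sc K par hε, Fin.prod_univ_succ]
        ring
      rw [h2]
      simp only [map_sub]
      rw [Dε_rho K par f hε, rho_sc K par hε, map_add,
        map_add, map_mul, thC_ι, thC_dT, dT'_rC, ← rho_apply, map_smul, thC_dT, map_smul,
        map_smul, hg', dT_prod, dT_prod, map_sum, map_sum, map_sum, map_sum, Finset.smul_sum]
    have h3 : act K _ (nord K (thC K par f)) (∏ i, ιS K _ (toCM par K (z i))) =
        rho K (toCM par K (z 0)) (act K _ (nord K (thC K par f))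
          (∏ i, ιS K _ (toCM par K (z' i)))) + 0 -
        ∑ i, act K _ (nord K (thC K par f)) (∏ j, ιS K _
          (toCM par K (Function.update z' i (rC K par (z 0) (z' i)) j))) - ∑ i : Fin m, 0 := by
      have h4 := dR_prod K (toCM par K (z 0)) fun i => toCM par K (z' i)
      have h5 : ∀ i, (∏ j, ιS K _ (Function.update (fun i => toCM par K (z' i)) i
          (toCM par K (z' i) * toCM par K (z 0)) j)) =
          ∏ j, ιS K _ (toCM par K (Function.update z' i (rC K par (z 0) (z' i)) j)) := by
        intro i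
        refine Finset.prod_congr rfl fun j _ => ?_
        by_cases hj : j = i
        · subst hj
          rw [Function.update_self, Function.update_self, rC_apply, toCM_mul]
        · rw [Function.update_of_ne hj, Function.update_of_ne hj]
      simp only [h5] at h4
      rw [← act_rho, ← map_sum, ← h4, rho_apply, Fin.prod_univ_succ, Finset.sum_const_zero]
      simp only [map_add, add_zero, sub_zero]
      rw [add_sub_cancel_right]
    rw [h3]
    refine PLim.congr ?_ h1
    refine ((PLim.add ?_ ?_).sub ?_).sub ?_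
    · exact (ih z').map _
    · have h6 := ((ih z').map (dT' K par (rO K par (z 0)) :
        Sy K (CM par K) →ₗ[K] Sy K (CM par K))).smul_pow 2
      rw [if_neg two_ne_zero] at h6
      exact h6
    · exact PLim.sum _ fun i _ => ih _
    · refine PLim.sum _ fun i _ => ?_
      have h7 := (ih (Function.update z' i (rO K par (z 0) (z' i)))).smul_pow 2
      rw [if_neg two_ne_zero] at h7
      exact h7

theorem Dε_lim (f g : Sy K (Matrix n n K)) :
    PLim (fun ε : K => thC K par (Dε K par f ε g))
      (act K _ (nord K (thC K par f)) (thC K par g)) := by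
  have h3 : g ∈ Submodule.span K (Set.range fun w : (Σ m : ℕ, Fin m → Matrix n n K) =>
      ∏ i, ιS K (Matrix n n K) (w.2 i)) := by
    rw [span_prod]
    trivial
  refine Submodule.span_induction ?_ ?_ ?_ ?_ h3
  · rintro _ ⟨⟨m, z⟩, rfl⟩
    have h := Dε_prod_lim K par f m z
    simp only [map_prod, thC_ι]
    exact h
  · rw [map_zero, map_zero]
    refine (PLim.const 0).congr fun ε _ => ?_
    rw [map_zero, map_zero]
  · intro a b _ _ ha hb
    rw [map_add, map_add]
    refine (ha.add hb).congr fun ε _ => ?_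
    rw [map_add, map_add]
  · intro c a _ ha
    rw [map_smul, map_smul]
    refine (ha.map (c • LinearMap.id)).congr fun ε _ => ?_
    rw [map_smul, map_smul]
    rfl

end Pool.Agent.helper90.MF
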