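import Mathlib
import Pool.Agent.helper90.MF.Phi
import Pool.Agent.helper90.MF.Hgen
import Pool.Agent.helper90.MF.Cspan

/-!
# The graded parts commute in the enveloping algebra of the contracted algebra
-/

set_option autoImplicit false
set_option linter.unusedSectionVars false

namespace Pool.Agent.helper90.MF

open Pool.Agent.helper5.AS Finset Polynomial

attribute [local instance 100] LieRing.ofAssociativeRing

variable (K : Type*) [Field K] [CharZero K] {n : Type*} [Fintype n] [DecidableEq n]
  (par : n → Bool)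

theorem Dε_add (f g : Sy K (Matrix n n K)) (ε : K) :
    Dε K par (f + g) ε = Dε K par f ε + Dε K par g ε := by
  refine LinearMap.ext fun ψ => ?_
  rw [LinearMap.add_apply, Dε_apply, Dε_apply, Dε_apply, map_add, map_add, map_add,
    LinearMap.add_apply, map_add]

theorem Dε_smul (c : K) (f : Sy K (Matrix n n K)) (ε : K) :
    Dε K par (c • f) ε = c • Dε K par f ε := by
  refine LinearMap.ext fun ψ => ?_
  rw [LinearMap.smul_apply, Dε_apply, Dε_apply, map_smul, map_smul, map_smul,
    LinearMap.smul_apply, map_smul]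

theorem Dε_sum {S : Type*} (s : Finset S) (f : S → Sy K (Matrix n n K)) (ε : K) :
    Dε K par (∑ i ∈ s, f i) ε = ∑ i ∈ s, Dε K par (f i) ε := by
  classical
  induction s using Finset.induction_on with
  | empty =>
    rw [Finset.sum_empty, Finset.sum_empty]
    have h := Dε_smul K par 0 0 ε
    rwa [zero_smul, zero_smul] at h
  | insert a s ha ih => rw [Finset.sum_insert ha, Finset.sum_insert ha, Dε_add, ih]

/-- the limit of two graded families -/
theorem family_lim (f f' : ℕ → Sy K (Matrix n n K)) (b b' : ℕ) :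
    PLim (fun ε : K => thC K par (Dε K par (∑ s ∈ range (b + 1), ε ^ (b - s) • f s) ε
      (∑ s ∈ range (b' + 1), ε ^ (b' - s) • f' s)))
      (act K _ (nord K (thC K par (f b))) (thC K par (f' b'))) := by
  have h1 : act K _ (nord K (thC K par (f b))) (thC K par (f' b')) =
      ∑ s ∈ range (b + 1), ∑ s' ∈ range (b' + 1), if (b - s) + (b' - s') = 0 then
        act K _ (nord K (thC K par (f s))) (thC K par (f' s')) else 0 := by
    rw [Finset.sum_eq_single b, Finset.sum_eq_single b', if_pos (by omega)]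
    · intro s hs hs'
      rw [mem_range] at hs
      exact if_neg (by omega)
    · intro h
      exact absurd (mem_range.2 (Nat.lt_succ_self b')) h
    · intro s hs hs'
      rw [mem_range] at hs
      exact Finset.sum_eq_zero fun s' _ => if_neg (by omega)
    · intro h
      exact absurd (mem_range.2 (Nat.lt_succ_self b)) h
  rw [h1]
  refine (PLim.sum _ fun s _ => PLim.sum _ fun s' _ =>
    (Dε_lim K par (f s) (f' s')).smul_pow ((b - s) + (b' - s'))).congr fun ε _ => ?_
  rw [Dε_sum, LinearMap.sum_apply, map_sum]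
  refine Finset.sum_congr rfl fun s _ => ?_
  rw [map_sum, map_sum]
  refine Finset.sum_congr rfl fun s' _ => ?_
  rw [Dε_smul, LinearMap.smul_apply, map_smul, map_smul, map_smul, smul_smul, ← pow_add]

/-- the family of `e_k` -/
noncomputable def Fk (ξ : Matrix n n K) (k : ℕ) (t ε : K) : Sy K (Matrix n n K) :=
  ∑ s ∈ range (bk par k + 1), ε ^ (bk par k - s) • (ez par (mat K ξ ![1, t, 0]) k).coeff s

theorem Fk_eq (ξ : Matrix n n K) (k : ℕ) (t : K) {ε : K} (hε : ε ≠ 0) :
    Fk K par ξ k t ε = ε ^ bk par k •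
      (ez par (mat K ξ ![1, t, 0]) k).eval (algebraMap K _ ε⁻¹) := by
  rw [Fk, ez_eval_sum, Finset.smul_sum]
  refine Finset.sum_congr rfl fun s hs => ?_
  rw [mem_range] at hs
  rw [smul_smul]
  congr 1
  rw [inv_pow, pow_sub₀ ε hε (by omega)]

theorem Sc_Fk_mem (ξ : Matrix n n K) (k : ℕ) (t : K) {ε : K} (hε : ε ≠ 0) :
    Sc K par ε (Fk K par ξ k t ε) ∈ cspan K (sc K par ε⁻¹ ξ) := by
  rw [Fk_eq K par ξ k t hε, map_smul]
  refine Submodule.smul_mem _ _ ?_
  rw [ez_eval]
  have h1 := gd_map (Sc K par ε).toRingHom (Matrix.of fun i j =>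
    (algebraMap K (Sy K (Matrix n n K)) ε⁻¹) ^ od par i j * mat K ξ ![1, t, 0] i j) k
  have h2 : (Matrix.of fun i j => (algebraMap K (Sy K (Matrix n n K)) ε⁻¹) ^ od par i j *
      mat K ξ ![1, t, 0] i j).map (Sc K par ε).toRingHom =
      mat K (sc K par ε⁻¹ ξ) ![1, t, 0] := by
    ext i j : 1
    have h3 : Sc K par ε (genE K i j) = (algebraMap K _ ε) ^ od par i j * genE K i j := by
      rw [genE, Matrix.of_apply, Sc_ι, ← map_pow, ← Algebra.smul_def, ← map_smul]
      congr 1
      ext a b
      rw [sc_apply, Matrix.smul_apply, Matrix.single_apply, smul_eq_mul]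
      split_ifs with h
      · rw [h.1, h.2]
      · rw [mul_zero, mul_zero]
    have h4 : (algebraMap K (Sy K (Matrix n n K)) ε⁻¹) ^ od par i j *
        (algebraMap K (Sy K (Matrix n n K)) ε) ^ od par i j = 1 := by
      rw [← mul_pow, ← map_mul, inv_mul_cancel₀ hε, map_one, one_pow]
    rw [Matrix.map_apply, Matrix.of_apply, AlgHom.toRingHom_eq_coe, RingHom.coe_coe, map_mul,
      map_pow, AlgHom.commutes, mat, mat, Matrix.of_apply, Matrix.of_apply]
    simp only [Matrix.cons_val_zero, Matrix.cons_val_one, Matrix.cons_val_two,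
      Matrix.head_cons, Matrix.tail_cons, one_smul, zero_mul, add_zero]
    rw [map_add, h3, AlgHom.commutes, mul_add, ← mul_assoc, h4, one_mul, sc_apply, ← map_pow,
      ← map_mul]
    congr 2
    ring
  rw [h2] at h1
  have h5 : (Sc K par ε) ((gd (Matrix.of fun i j =>
      (algebraMap K (Sy K (Matrix n n K)) ε⁻¹) ^ od par i j * mat K ξ ![1, t, 0] i j)).coeff k) =
      (gd (mat K (sc K par ε⁻¹ ξ) ![1, t, 0])).coeff k := h1.symm
  rw [h5]
  exact gd_mat_mem K _ _ one_ne_zero k

theorem Dε_Fk_comm (ξ : Matrix n n K) (k k' : ℕ) (t t' : K) {ε : K} (hε : ε ≠ 0) :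
    Dε K par (Fk K par ξ k t ε) ε (Fk K par ξ k' t' ε) =
      Dε K par (Fk K par ξ k' t' ε) ε (Fk K par ξ k t ε) := by
  have h := cspan_commute K _ (Sc_Fk_mem K par ξ k t hε) (Sc_Fk_mem K par ξ k' t' hε)
  have h1 : ∀ A B : Sy K (Matrix n n K), act K _ (nord K A) B =
      act K _ (nord K A * nord K B) 1 := fun A B => by
    rw [map_mul, Module.End.mul_apply, act_nord]
  rw [Dε_apply, Dε_apply, h1, h.eq, ← h1]

/-- the graded parts `H_k(E + t ξ)` commute in `U` of the contracted algebra -/
theorem hk_commute (ξ : Matrix n n K) (k k' : ℕ) (t t' : K) :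
    Commute (nord K (thC K par (hk par (mat K ξ ![1, t, 0]) k)))
      (nord K (thC K par (hk par (mat K ξ ![1, t', 0]) k'))) := by
  refine commute_of_act K ?_
  rw [act_nord, act_nord]
  have h1 := family_lim K par (fun s => (ez par (mat K ξ ![1, t, 0]) k).coeff s)
    (fun s => (ez par (mat K ξ ![1, t', 0]) k').coeff s) (bk par k) (bk par k')
  have h2 := family_lim K par (fun s => (ez par (mat K ξ ![1, t', 0]) k').coeff s)
    (fun s => (ez par (mat K ξ ![1, t, 0]) k).coeff s) (bk par k') (bk par k)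
  refine h1.unique (h2.congr fun ε hε => ?_)
  exact congrArg (thC K par) (Dε_Fk_comm K par ξ k k' t t' hε)

end Pool.Agent.helper90.MF
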