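import Mathlib
import Pool.Agent.helper90.MF.TA

/-!
# Symbols of normally ordered elements; functoriality
-/

set_option autoImplicit false
set_option linter.unusedSectionVars false

namespace Pool.Agent.helper90.MF

open Pool.Agent.helper5.AS Finset Polynomial

attribute [local instance 100] LieRing.ofAssociativeRing

section Assoc

variable (K : Type*) [Field K] [CharZero K] {A : Type*} [Ring A] [Algebra K A]

theorem nord_prod_low (m : ℕ) (z : Fin m → A) :
    nord K (∏ i, ιS K A (z i)) ∈ lowU K A (m + 1) := by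
  induction m with
  | zero =>
    have h1 : nord K (∏ i : Fin 0, ιS K A (z i)) = 1 := by
      refine nord_of_act K ?_
      rw [map_one (act K A), Module.End.one_apply, Finset.univ_eq_empty, Finset.prod_empty]
    rw [h1]
    exact one_mem_lowU
  | succ m ih =>
    have h1 : nord K (∏ i : Fin (m + 1), ιS K A (z i)) =
        ιU K A (z 0) * nord K (∏ i : Fin m, ιS K A (z i.succ)) -
        ∑ i : Fin m, nord K (∏ j, ιS K A
          (Function.update (fun i : Fin m => z i.succ) i (z 0 * z i.succ) j)) := by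
      refine nord_of_act K ?_
      rw [map_sub, LinearMap.sub_apply, map_mul, Module.End.mul_apply, act_ι, act_nord,
        map_sum, LinearMap.sum_apply, lam_apply, dL_prod K (z 0) fun i : Fin m => z i.succ,
        Finset.sum_congr rfl fun i _ => act_nord K _, add_sub_cancel_right,
        Fin.prod_univ_succ]
    rw [h1]
    refine sub_mem ?_ (sum_mem fun i _ => lowU_le_succ _ (ih _))
    have h2 := mul_mem_lowU (m := 1) (ιU_mem (𝕜 := K) (z 0)) (ih fun i => z i.succ)
    rwa [add_comm 1 (m + 1)] at h2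

theorem nord_low {d : ℕ} {F : Sy K A} (hF : F ∈ lowS K A d) : nord K F ∈ lowU K A d := by
  refine Submodule.span_induction ?_ ?_ ?_ ?_ hF
  · rintro _ ⟨m, hm, z, rfl⟩
    exact lowU_mono (by omega) (nord_prod_low K m z)
  · rw [map_zero]
    exact zero_mem _
  · intro a b _ _ ha hb
    rw [map_add]
    exact add_mem ha hb
  · intro c a _ ha
    rw [map_smul]
    exact Submodule.smul_mem _ c ha

/-- the symbol of the normally ordered element -/
theorem nord_symbol {d : ℕ} {F : Sy K A} (hF : F ∈ imS K A ^ d) : IsSymbol d F (nord K F) := by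
  have h1 : Submodule.map (pS (𝕜 := K) (L := A)).toLinearMap (imT K A ^ d) = imS K A ^ d := by
    rw [Submodule.map_pow]
    congr 1
    rw [imT, imS, ← LinearMap.range_comp]
    rfl
  rw [← h1] at hF
  obtain ⟨t, ht, rfl⟩ := hF
  refine ⟨t, ht, rfl, ?_⟩
  have h2 := act_top K ht
  have h3 := nord_low K h2
  rw [map_sub, nord_of_act K (rfl : act K A (pU t) 1 = _)] at h3
  have h4 := neg_mem h3
  rwa [neg_sub] at h4

end Assoc

section Map

variable (K : Type*) [Field K] {A L : Type*} [LieRing A] [LieAlgebra K A] [LieRing L]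
  [LieAlgebra K L]

/-- functoriality of the symmetric algebra -/
noncomputable def mapS (f : A →ₗ⁅K⁆ L) : Sy K A →ₐ[K] Sy K L :=
  SymmetricAlgebra.lift (ιS K L ∘ₗ (f : A →ₗ[K] L))

theorem mapS_ι (f : A →ₗ⁅K⁆ L) (x : A) : mapS K f (ιS K A x) = ιS K L (f x) :=
  SymmetricAlgebra.lift_ι_apply ..

/-- functoriality of the tensor algebra -/
noncomputable def mapT (f : A →ₗ⁅K⁆ L) : TensorAlgebra K A →ₐ[K] TensorAlgebra K L :=
  TensorAlgebra.lift K (TensorAlgebra.ι K ∘ₗ (f : A →ₗ[K] L))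

theorem mapT_ι (f : A →ₗ⁅K⁆ L) (x : A) :
    mapT K f (TensorAlgebra.ι K x) = TensorAlgebra.ι K (f x) :=
  TensorAlgebra.lift_ι_apply ..

theorem pS_mapT (f : A →ₗ⁅K⁆ L) (t : TensorAlgebra K A) :
    pS (mapT K f t) = mapS K f (pS t) := by
  have h : (pS (𝕜 := K) (L := L)).comp (mapT K f) = (mapS K f).comp (pS (𝕜 := K) (L := A)) := by
    refine TensorAlgebra.hom_ext (LinearMap.ext fun x => ?_)
    show pS (mapT K f (TensorAlgebra.ι K x)) = mapS K f (pS (TensorAlgebra.ι K x))
    rw [mapT_ι, pS_ι, pS_ι, mapS_ι]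
  exact congrArg (fun F : TensorAlgebra K A →ₐ[K] Sy K L => F t) h

theorem pU_mapT (f : A →ₗ⁅K⁆ L) (t : TensorAlgebra K A) :
    pU (mapT K f t) = mapU K f (pU t) := by
  have h : (pU (𝕜 := K) (L := L)).comp (mapT K f) = (mapU K f).comp (pU (𝕜 := K) (L := A)) := by
    refine TensorAlgebra.hom_ext (LinearMap.ext fun x => ?_)
    show pU (mapT K f (TensorAlgebra.ι K x)) = mapU K f (pU (TensorAlgebra.ι K x))
    rw [mapT_ι, pU_ι, pU_ι, mapU_ι]
  exact congrArg (fun F : TensorAlgebra K A →ₐ[K] Ue K L => F t) h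

theorem mapT_mem (f : A →ₗ⁅K⁆ L) {d : ℕ} {t : TensorAlgebra K A} (ht : t ∈ imT K A ^ d) :
    mapT K f t ∈ imT K L ^ d := by
  have h1 : Submodule.map (mapT K f).toLinearMap (imT K A ^ d) ≤ imT K L ^ d := by
    rw [Submodule.map_pow]
    refine pow_le_pow_left' ?_ d
    rintro _ ⟨_, ⟨x, rfl⟩, rfl⟩
    exact ⟨f x, (mapT_ι K f x).symm⟩
  exact h1 (Submodule.mem_map_of_mem ht)

theorem mapU_low (f : A →ₗ⁅K⁆ L) {d : ℕ} {u : Ue K A} (hu : u ∈ lowU K A d) :
    mapU K f u ∈ lowU K L d := by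
  cases d with
  | zero =>
    rw [lowU_zero, Submodule.mem_bot] at hu
    rw [hu, map_zero]
    exact zero_mem _
  | succ d =>
    rw [lowU_succ] at hu ⊢
    have h1 : Submodule.map (mapU K f).toLinearMap ((1 ⊔ imU K A) ^ d) ≤ (1 ⊔ imU K L) ^ d := by
      rw [Submodule.map_pow]
      refine pow_le_pow_left' ?_ d
      rw [Submodule.map_sup]
      refine sup_le_sup ?_ ?_
      · rw [Submodule.map_one]
      · rintro _ ⟨_, ⟨x, rfl⟩, rfl⟩
        exact ⟨f x, (mapU_ι K f x).symm⟩
    exact h1 (Submodule.mem_map_of_mem hu)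

/-- functoriality of the symbol -/
theorem map_symbol (f : A →ₗ⁅K⁆ L) {d : ℕ} {a : Sy K A} {u : Ue K A} (h : IsSymbol d a u) :
    IsSymbol d (mapS K f a) (mapU K f u) := by
  obtain ⟨t, ht, rfl, h2⟩ := h
  refine ⟨mapT K f t, mapT_mem K f ht, pS_mapT K f t, ?_⟩
  have h3 := mapU_low K f h2
  have h4 : (UniversalEnvelopingAlgebra.mkAlgHom K L) (mapT K f t) =
      mapU K f (UniversalEnvelopingAlgebra.mkAlgHom K A t) := pU_mapT K f t
  rwa [map_sub, ← h4] at h3

end Map

end Pool.Agent.helper90.MF
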