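import Mathlib
import Pool.Agent.helper90.MF.HComm
import Pool.Agent.helper90.MF.Symb
import Pool.Agent.helper5.AS.ThmA

/-!
# Type AIII: commuting elements of the enveloping algebra of the contraction
-/

set_option autoImplicit false
set_option linter.unusedSectionVars false

namespace Pool.Agent.helper90.MF

open Pool.Agent.helper5.AS Finset Polynomial

attribute [local instance 100] LieRing.ofAssociativeRing

variable (K : Type*) [Field K] {n : Type*} [Fintype n] [DecidableEq n] (par : n → Bool)

section Deg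

variable {L : Type*} [LieRing L] [LieAlgebra K L]

theorem prod_mem_pow {J : Type*} [DecidableEq J] (s : Finset J) (f : J → Sy K L)
    (hf : ∀ j ∈ s, f j ∈ imS K L) : ∏ j ∈ s, f j ∈ imS K L ^ s.card := by
  induction s using Finset.induction_on with
  | empty =>
    rw [Finset.prod_empty, Finset.card_empty, pow_zero]
    exact Submodule.one_le.1 le_rfl
  | insert a s ha ih =>
    rw [Finset.prod_insert ha, Finset.card_insert_of_notMem ha, pow_succ']
    exact Submodule.mul_mem_mul (hf a (Finset.mem_insert_self a s))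
      (ih fun j hj => hf j (Finset.mem_insert_of_mem hj))

theorem hk_mem (M : Matrix n n (Sy K L)) (hM : ∀ i j, M i j ∈ imS K L) (k : ℕ) :
    hk par M k ∈ imS K L ^ k := by
  rw [hk, ez, gd, Matrix.coeff_det_one_add_X_smul_eq_sum_minors, Polynomial.finsetSum_coeff]
  refine sum_mem fun s hs => ?_
  have hs' := (Finset.mem_powersetCard.1 hs).2
  rw [Matrix.det_apply', Polynomial.finsetSum_coeff]
  refine sum_mem fun σ _ => ?_
  have h1 : ∏ i, ((Matrix.of fun i j => (X : (Sy K L)[X]) ^ od par i j * C (M i j)).submatrix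
      (Subtype.val : s → n) (Subtype.val : s → n)) (σ i) i =
      X ^ (∑ i : s, od par (σ i : n) (i : n)) * C (∏ i : s, M (σ i : n) (i : n)) := by
    rw [← Finset.prod_pow_eq_pow_sum, map_prod, ← Finset.prod_mul_distrib]
    rfl
  have h2 : ∏ i : s, M (σ i : n) (i : n) ∈ imS K L ^ k := by
    have h3 := prod_mem_pow K (univ : Finset s) (fun i => M (σ i : n) (i : n))
      fun i _ => hM _ _
    rwa [Finset.card_univ, Fintype.card_coe, hs'] at h3
  rw [h1, ← Polynomial.C_eq_intCast, Polynomial.coeff_C_mul, Polynomial.coeff_X_pow_mul',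
    Polynomial.coeff_C]
  have h4 : ∀ z : ℤ, (z : Sy K L) * (if (∑ i : s, od par (σ i : n) (i : n)) ≤ bk par k then
      (if bk par k - ∑ i : s, od par (σ i : n) (i : n) = 0 then
        ∏ i : s, M (σ i : n) (i : n) else 0) else 0) ∈ imS K L ^ k := by
    intro z
    rw [← zsmul_eq_mul]
    refine zsmul_mem ?_ z
    split_ifs
    · exact h2
    · exact zero_mem _
    · exact zero_mem _
  exact h4 _

end Deg

theorem shift_map {A L : Type*} [LieRing A] [LieAlgebra K A] [LieRing L] [LieAlgebra K L]
    (f : A →ₗ⁅K⁆ L) (ξ : L →ₗ[K] K) (F : Sy K A) :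
    shift ξ (mapS K f F) = (shift (ξ ∘ₗ (f : A →ₗ[K] L)) F).map (mapS K f).toRingHom := by
  induction F using SymmetricAlgebra.induction with
  | algebraMap r =>
    rw [AlgHom.commutes, AlgHom.commutes, AlgHom.commutes, Polynomial.algebraMap_apply,
      Polynomial.algebraMap_apply, Polynomial.map_C]
    congr 1
    exact ((mapS K f).commutes r).symm
  | ι x =>
    rw [mapS_ι, shift_ι, shift_ι, Polynomial.map_add, Polynomial.map_mul, Polynomial.map_C,
      Polynomial.map_C, Polynomial.map_X]
    have h1 : (mapS K f).toRingHom (ιS K A x) = ιS K L (f x) := mapS_ι K f x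
    have h2 : (mapS K f).toRingHom (algebraMap K (Sy K A) ((ξ ∘ₗ (f : A →ₗ[K] L)) x)) =
        algebraMap K (Sy K L) (ξ (f x)) := (mapS K f).commutes _
    rw [h1, h2]
  | mul a b ha hb => rw [map_mul, map_mul, ha, hb, map_mul, Polynomial.map_mul]
  | add a b ha hb => rw [map_add, map_add, ha, hb, map_add, Polynomial.map_add]

variable [CharZero K]

/-- the generator matrix of the contracted algebra -/
noncomputable def gC : Matrix n n (Sy K (CM par K)) :=
  Matrix.of fun i j => ιS K (CM par K) (toCM par K (Matrix.single i j 1))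

theorem tau_gC (ξ : CM par K →ₗ[K] K) (t : K) (k : ℕ) :
    tau ξ t (hk par (gC K par) k) = thC K par (hk par (mat K (Matrix.of fun i j =>
      ξ (toCM par K (Matrix.single i j 1))) ![1, t, 0]) k) := by
  have h1 : tau ξ t (hk par (gC K par) k) =
      hk par ((gC K par).map (tau ξ t).toRingHom) k :=
    (hk_map par (tau ξ t).toRingHom (gC K par) k).symm
  have h2 : thC K par (hk par (mat K (Matrix.of fun i j =>
      ξ (toCM par K (Matrix.single i j 1))) ![1, t, 0]) k) =
      hk par ((mat K (Matrix.of fun i j =>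
      ξ (toCM par K (Matrix.single i j 1))) ![1, t, 0]).map (thC K par).toRingHom) k :=
    (hk_map par (thC K par).toRingHom _ k).symm
  rw [h1, h2]
  congr 1
  ext i j : 1
  rw [Matrix.map_apply, Matrix.map_apply, AlgHom.toRingHom_eq_coe, AlgHom.toRingHom_eq_coe,
    RingHom.coe_coe, RingHom.coe_coe, gC, Matrix.of_apply, tau_ι, mat, Matrix.of_apply,
    Matrix.of_apply, genE, Matrix.of_apply]
  simp only [Matrix.cons_val_zero, Matrix.cons_val_one, Matrix.cons_val_two,
    Matrix.head_cons, Matrix.tail_cons, one_smul, zero_mul, add_zero]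
  rw [map_add, thC_ι, AlgHom.commutes]

/-- the commuting elements of `U` of the contracted algebra -/
noncomputable def uC (ξ : CM par K →ₗ[K] K) (k m : ℕ) : Ue K (CM par K) :=
  nord K ((shift ξ (hk par (gC K par) k)).coeff m)

theorem uC_commute (ξ : CM par K →ₗ[K] K) (k m k' m' : ℕ) :
    Commute (uC K par ξ k m) (uC K par ξ k' m') := by
  set N := (shift ξ (hk par (gC K par) k)).natDegree +
    (shift ξ (hk par (gC K par) k')).natDegree + m + m' + 1 with hN
  have key : ∀ (k : ℕ) (t : K), (shift ξ (hk par (gC K par) k)).natDegree < N →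
      ∑ m ∈ range N, t ^ m • uC K par ξ k m = nord K (thC K par (hk par (mat K
        (Matrix.of fun i j => ξ (toCM par K (Matrix.single i j 1))) ![1, t, 0]) k)) := by
    intro k t hk
    rw [← tau_gC, tau_eq_eval, Polynomial.eval_eq_sum_range' hk, map_sum]
    refine Finset.sum_congr rfl fun m _ => ?_
    rw [uC, ← map_smul, Algebra.smul_def, map_pow, mul_comm]
  refine commute_coeff (K := K) N (fun m => uC K par ξ k m) (fun m => uC K par ξ k' m)
    (fun s t => ?_) (by omega) (by omega)
  rw [key k s (by omega), key k' t (by omega)]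
  exact hk_commute K par _ k k' s t

variable {L : Type*} [LieRing L] [LieAlgebra K L]

/-- **type AIII**: the coefficients of the shifted generators have commuting lifts -/
theorem AIII (Y : Matrix n n K →ₗ[K] L)
    (hY : ∀ a b, ⁅Y a, Y b⁆ = Y (cmul K par a b - cmul K par b a)) (ξ : L →ₗ[K] K) :
    ∃ u : ℕ → ℕ → Ue K L, (∀ k m k' m', Commute (u k m) (u k' m')) ∧
      ∀ k m, m ≤ k → IsSymbol (k - m) ((shift ξ (Hk K par Y k)).coeff m) (u k m) := by
  let Yc : CM par K →ₗ⁅K⁆ L :=
    { Y ∘ₗ (toCM par K).symm.toLinearMap with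
      map_lie' := fun {a b} => (hY a b).symm }
  have hYc : ∀ a, Yc (toCM par K a) = Y a := fun a => rfl
  let ξC : CM par K →ₗ[K] K := ξ ∘ₗ (Yc : CM par K →ₗ[K] L)
  refine ⟨fun k m => mapU K Yc (uC K par ξC k m), fun k m k' m' =>
    (uC_commute K par ξC k m k' m').map (mapU K Yc), fun k m hm => ?_⟩
  have h1 : mapS K Yc (hk par (gC K par) k) = Hk K par Y k := by
    have h2 : mapS K Yc (hk par (gC K par) k) = hk par ((gC K par).map (mapS K Yc).toRingHom) k :=
      (hk_map par (mapS K Yc).toRingHom (gC K par) k).symm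
    have h3 : (gC K par).map (mapS K Yc).toRingHom = (xS K Y).transpose := by
      ext i j : 1
      rw [Matrix.map_apply, AlgHom.toRingHom_eq_coe, RingHom.coe_coe, gC, Matrix.of_apply,
        mapS_ι, hYc, Matrix.transpose_apply, xS, Matrix.of_apply]
    rw [h2, h3, hk_transpose]
    rfl
  have h4 : hk par (gC K par) k ∈ imS K (CM par K) ^ k :=
    hk_mem K par (gC K par) (fun i j => ⟨_, rfl⟩) k
  have h5 := (shift_coeff_mem ξC h4).1 m (k - m) (by omega)
  have h6 := map_symbol K Yc (nord_symbol K h5)
  have h7 : mapS K Yc ((shift ξC (hk par (gC K par) k)).coeff m) =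
      (shift ξ (Hk K par Y k)).coeff m := by
    rw [← h1, shift_map, Polynomial.coeff_map]
    rfl
  rw [h7] at h6
  exact h6

end Pool.Agent.helper90.MF
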